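import Mathlib

/-!
# Functionals on the source and on the target of the rationalised assembly map

Functionals on `K_1` and `K_{-1}` are functions on invertible and on idempotent matrices; the dual of
`H_m(Γ; ℚ)` is `H^m(Γ; ℚ)`.
-/

set_option autoImplicit false

open CategoryTheory

noncomputable section

namespace Pool.Agent.FJL.Lit

/-! ## Matrices -/

/-- The group `GL_r(R)`. -/
def GLr (R : Type) [Ring R] (r : ℕ) : Type := (Matrix (Fin r) (Fin r) R)ˣ

instance GLr.grp (R : Type) [Ring R] (r : ℕ) : Group (GLr R r) :=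
  (inferInstance : Group (Matrix (Fin r) (Fin r) R)ˣ)

/-- The underlying matrix. -/
def GLr.mat {R : Type} [Ring R] {r : ℕ} (X : GLr R r) : Matrix (Fin r) (Fin r) R := Units.val X

/-- The homomorphism `GL_r(R) → GL_r(S)` induced by a ring homomorphism. -/
def GLr.map {R S : Type} [Ring R] [Ring S] (f : R →+* S) (r : ℕ) : GLr R r →* GLr S r :=
  Units.map f.mapMatrix.toMonoidHom

/-- A unit of `R` as a scalar matrix. -/
def GLr.sc {R : Type} [Ring R] (r : ℕ) : Rˣ →* GLr R r :=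
  Units.map (Matrix.scalar (Fin r)).toMonoidHom

/-- The block sum of two square matrices. -/
def bs {R : Type} [Ring R] {r s : ℕ} (e : Matrix (Fin r) (Fin r) R) (f : Matrix (Fin s) (Fin s) R) :
    Matrix (Fin (r + s)) (Fin (r + s)) R :=
  (Matrix.fromBlocks e 0 0 f).submatrix finSumFinEquiv.symm finSumFinEquiv.symm

/-! ## Group rings -/

/-- The ring homomorphism `ℤ[G] → ℤ[K]` induced by a homomorphism of groups. -/
def zg {G K : Type} [Group G] [Group K] (φ : G →* K) : MonoidAlgebra ℤ G →+* MonoidAlgebra ℤ K :=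
  MonoidAlgebra.mapDomainRingHom ℤ φ

/-- The element `g` of `G` as a unit of `ℤ[G]`. -/
def gu {G : Type} [Group G] : G →* (MonoidAlgebra ℤ G)ˣ := (MonoidAlgebra.of ℤ G).toHomUnits

/-- The ring `ℤ[G][t,t⁻¹]`. -/
def LG (G : Type) [Group G] : Type := LaurentPolynomial (MonoidAlgebra ℤ G)

instance LG.ring (G : Type) [Group G] : Ring (LG G) :=
  (inferInstance : Ring (LaurentPolynomial (MonoidAlgebra ℤ G)))

/-- The inclusion `ℤ[G] → ℤ[G][t,t⁻¹]`. -/
def cc {G : Type} [Group G] : MonoidAlgebra ℤ G →+* LG G :=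
  (LaurentPolynomial.C : MonoidAlgebra ℤ G →+* LaurentPolynomial (MonoidAlgebra ℤ G))

/-- The element `t ^ k` of `ℤ[G][t,t⁻¹]`. -/
def tk (G : Type) [Group G] (k : ℤ) : LG G :=
  (LaurentPolynomial.T k : LaurentPolynomial (MonoidAlgebra ℤ G))

/-- The ring homomorphism `ℤ[G][t,t⁻¹] → ℤ[K][t,t⁻¹]` induced by a homomorphism of groups. -/
def lg {G K : Type} [Group G] [Group K] (φ : G →* K) : LG G →+* LG K :=
  AddMonoidAlgebra.mapRingHom ℤ (zg φ)

/-- The elements of `G` as scalar matrices over `ℤ[G][t,t⁻¹]`. -/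
def gr {G : Type} [Group G] (r : ℕ) : G →* GLr (LG G) r :=
  (GLr.map cc r).comp ((GLr.sc r).comp gu)

/-! ## Functionals on `K_1` and `K_{-1}` -/

/-- A homomorphism from `K_1(R)` to `W`: homomorphisms `GL_r(R) → W` which are additive on block sums. -/
def IsK1 {R W : Type} [Ring R] [AddCommGroup W] (B : ∀ r : ℕ, GLr R r → W) : Prop :=
  (∀ (r : ℕ) (X Y : GLr R r), B r (X * Y) = B r X + B r Y) ∧
  ∀ (a b : ℕ) (X : GLr R a) (Y : GLr R b) (Z : GLr R (a + b)), Z.mat = bs X.mat Y.mat →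
    B (a + b) Z = B a X + B b Y

/-- A homomorphism from `K_{-1}(ℤ[H])`, the cokernel of `K_0(ℤ[H][X]) ⊕ K_0(ℤ[H][X]) → K_0(ℤ[H][t,t⁻¹])`,
`X ↦ t` and `X ↦ t⁻¹`, to `W`: a function on the idempotent matrices over `ℤ[H][t,t⁻¹]` with the same
value on `x y` and `y x`, additive on block sums, and zero on the idempotent matrices over the two
subrings `ℤ[H][t]` and `ℤ[H][t⁻¹]`. -/
def IsKm1 {H W : Type} [Group H] [AddCommGroup W]
    (A : ∀ r : ℕ, Matrix (Fin r) (Fin r) (LG H) → W) : Prop :=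
  (∀ (r s : ℕ) (x : Matrix (Fin r) (Fin s) (LG H)) (y : Matrix (Fin s) (Fin r) (LG H)),
      x * y * (x * y) = x * y → y * x * (y * x) = y * x → A r (x * y) = A s (y * x)) ∧
  (∀ (r s : ℕ) (e : Matrix (Fin r) (Fin r) (LG H)) (f : Matrix (Fin s) (Fin s) (LG H)),
      e * e = e → f * f = f → A (r + s) (bs e f) = A r e + A s f) ∧
  ∀ k : ℤ, (k = 1 ∨ k = -1) → ∃ j : Polynomial (MonoidAlgebra ℤ H) →+* LG H,
    j.comp Polynomial.C = cc ∧ j Polynomial.X = tk H k ∧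
      ∀ (r : ℕ) (e : Matrix (Fin r) (Fin r) (Polynomial (MonoidAlgebra ℤ H))), e * e = e →
        A r (e.map j) = 0

/-! ## Whitehead groups -/

/-- A linear functional on `Wh(G) ⊗ ℚ`: one on `K_1(ℤ[G]) ⊗ ℚ` that vanishes on the elements of `G`. -/
def IsWh {G : Type} [Group G] (F : ∀ r : ℕ, GLr (MonoidAlgebra ℤ G) r → ℚ) : Prop :=
  IsK1 F ∧ ∀ g : G, F 1 (GLr.sc 1 (gu g)) = 0

/-- The map `colim_H Wh(H) ⊗ ℚ → Wh(G) ⊗ ℚ` is injective, where `H` runs through the finite subgroups of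
`G` and the maps are those induced by the homomorphisms `H → K`, `a ↦ x a x⁻¹`: every compatible family
of linear functionals on the `Wh(H) ⊗ ℚ` extends to a linear functional on `Wh(G) ⊗ ℚ`. -/
def WhInj (G : Type) [Group G] : Prop :=
  ∀ f : ∀ (H : Subgroup G) (r : ℕ), GLr (MonoidAlgebra ℤ H) r → ℚ,
    (∀ H : Subgroup G, Finite H → IsWh (f H)) →
    (∀ (H K : Subgroup G) (x : G) (u : H →* K), Finite H → Finite K →
      (∀ a, (u a : G) = x * a * x⁻¹) → ∀ r X, f K r (GLr.map (zg u) r X) = f H r X) →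
    ∃ F : ∀ r : ℕ, GLr (MonoidAlgebra ℤ G) r → ℚ, IsWh F ∧
      ∀ H : Subgroup G, Finite H → ∀ r X, F r (GLr.map (zg H.subtype) r X) = f H r X

/-! ## Cohomology of groups -/

/-- The homology `H_m(Γ; k)` with trivial coefficients (Mathlib). -/
abbrev Hm (k : Type) [CommRing k] (m : ℕ) (Γ : Type) [Group Γ] : ModuleCat k :=
  groupHomology (Rep.trivial k Γ k) m

/-- The dual of `H_m(Γ; ℚ)`, that is, the cohomology `H^m(Γ; ℚ)`. -/
def Coh (m : ℕ) (Γ : Type) [Group Γ] : Type := Hm ℚ m Γ →ₗ[ℚ] ℚ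

instance Coh.acg (m : ℕ) (Γ : Type) [Group Γ] : AddCommGroup (Coh m Γ) :=
  (inferInstance : AddCommGroup (Hm ℚ m Γ →ₗ[ℚ] ℚ))

/-- The value of a cohomology class on a homology class. -/
def Coh.ev {m : ℕ} {Γ : Type} [Group Γ] (f : Coh m Γ) (c : Hm ℚ m Γ) : ℚ :=
  (show Hm ℚ m Γ →ₗ[ℚ] ℚ from f) c

/-- The map `H^m(Δ; ℚ) → H^m(Γ; ℚ)` induced by a homomorphism `Γ → Δ`. -/
def Coh.pull {m : ℕ} {Γ Δ : Type} [Group Γ] [Group Δ] (u : Γ →* Δ) (f : Coh m Δ) : Coh m Γ :=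
  (show Hm ℚ m Δ →ₗ[ℚ] ℚ from f) ∘ₗ (groupHomology.map u (𝟙 (Rep.trivial ℚ Γ ℚ)) m).hom

/-- The inhomogeneous chain `x` is a cycle with homology class `c`. -/
def Cls {m : ℕ} {Γ : Type} [Group Γ] (x : (Fin m → Γ) →₀ ℚ) (c : Hm ℚ m Γ) : Prop :=
  ∃ z : groupHomology.cycles (Rep.trivial ℚ Γ ℚ) m,
    (groupHomology.iCycles (Rep.trivial ℚ Γ ℚ) m).hom z = x ∧
      (groupHomology.π (Rep.trivial ℚ Γ ℚ) m).hom z = c

/-- The class `f` takes integral values on the classes of the cycles with integral coefficients,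
that is, it comes from a homomorphism `H_m(Γ; ℤ) → ℤ`. -/
def IsInt {m : ℕ} {Γ : Type} [Group Γ] (f : Coh m Γ) : Prop :=
  ∀ (x : (Fin m → Γ) →₀ ℚ) (c : Hm ℚ m Γ), Cls x c → (∀ a, ∃ k : ℤ, x a = k) →
    ∃ k : ℤ, f.ev c = k

/-- The class `f` is detected: it vanishes on the undetected homology classes, i.e. those on which all
the homomorphisms `H_m(Γ; ℤ) → ℤ` vanish; or there are no undetected classes except zero because
`m = 0` or `H_m(Γ; ℤ)` is finitely generated. -/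
def Det {m : ℕ} {Γ : Type} [Group Γ] (f : Coh m Γ) : Prop :=
  m = 0 ∨ Module.Finite ℤ (Hm ℤ m Γ) ∨
    ∀ c : Hm ℚ m Γ, (∀ g : Coh m Γ, IsInt g → g.ev c = 0) → f.ev c = 0

/-! ## The target -/

/-- A linear functional on `K_n(ℤ[G]) ⊗ ℚ`, `n ≥ 0`, where `K_n(R)` is the cokernel of
`K_{n+1}(R[X]) ⊕ K_{n+1}(R[X]) → K_{n+1}(R[t,t⁻¹])`, `X ↦ t` and `X ↦ t⁻¹` (tensored with `ℚ`), and
`K_{n+1}(S) ⊗ ℚ` is the space of indecomposables of the homology of `GL(S)`.  So it is a family of classes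
`F r` in `H^{n+1}(GL_r(ℤ[G][t,t⁻¹]); ℚ)` which is additive on block sums and vanishes on the two
subrings `ℤ[G][t]` and `ℤ[G][t⁻¹]`. -/
def IsKn {n : ℕ} {G : Type} [Group G] (F : ∀ r : ℕ, Coh (n + 1) (GLr (LG G) r)) : Prop :=
  (∀ a b : ℕ, ∃ s : GLr (LG G) a × GLr (LG G) b →* GLr (LG G) (a + b),
      (∀ X, (s X).mat = bs X.1.mat X.2.mat) ∧
      (F (a + b)).pull s = (F a).pull (MonoidHom.fst _ _) + (F b).pull (MonoidHom.snd _ _)) ∧
  ∀ k : ℤ, (k = 1 ∨ k = -1) → ∃ j : Polynomial (MonoidAlgebra ℤ G) →+* LG G,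
    j.comp Polynomial.C = cc ∧ j Polynomial.X = tk G k ∧ ∀ r : ℕ, (F r).pull (GLr.map j r) = 0

/-! ## The source -/

/-- The centraliser of the subgroup `H`. -/
abbrev CG {G : Type} [Group G] (H : Subgroup G) : Subgroup G := Subgroup.centralizer (H : Set G)

/-- The homomorphism `φ : H → K` is the conjugation `a ↦ g a g⁻¹`, and `u : Z_G(K) → Z_G(H)` is the
homomorphism `z ↦ g⁻¹ z g`. -/
def Cnj {G : Type} [Group G] {H K : Subgroup G} (g : G) (φ : H →* K) (u : CG K →* CG H) : Prop :=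
  (∀ a, (φ a : G) = g * a * g⁻¹) ∧ ∀ z, (u z : G) = g⁻¹ * z * g

/-- A linear functional on the sum of the parts with `t = 0`, `t = -1` and, for `n ≥ 1`, `t = 1` of the
source of the rationalised assembly map in degree `n`.

* The part `t = 0` is `H_n(G; ℚ)`.
* The part `t = -1` is `H_{n+1}(Z_G(?); ℚ) ⊗ K_{-1}(ℤ[?])`, the tensor product over the category of the
  finite subgroups of `G`, with the homomorphisms `H → K` which are conjugations by elements of `G`.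
  A functional on it is a family of homomorphisms `A H` from `K_{-1}(ℤ[H])` to
  `H^{n+1}(Z_G(H); ℚ)`, compatible with the conjugations.
* The part `t = 1` is `H_{n-1}(Z_G(?); ℚ) ⊗ K_1(ℤ[?])`, with the functionals `B`. -/
structure SrcFun (n : ℕ) (G : Type) [Group G] : Type where
  f : Coh n G
  A : ∀ (H : Subgroup G) (r : ℕ), Matrix (Fin r) (Fin r) (LG H) → Coh (n + 1) (CG H)
  B : ∀ (H : Subgroup G) (r : ℕ), GLr (MonoidAlgebra ℤ H) r → Coh (n - 1) (CG H)
  A_hom : ∀ H : Subgroup G, Finite H → IsKm1 (A H)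
  A_conj : ∀ (H K : Subgroup G) (g : G) (φ : H →* K) (u : CG K →* CG H), Finite H → Finite K →
    Cnj g φ u → ∀ (r : ℕ) (e : Matrix (Fin r) (Fin r) (LG H)), e * e = e →
      A K r (e.map (lg φ)) = (A H r e).pull u
  B_hom : ∀ H : Subgroup G, Finite H → IsK1 (B H)
  B_conj : ∀ (H K : Subgroup G) (g : G) (φ : H →* K) (u : CG K →* CG H), Finite H → Finite K →
    Cnj g φ u → ∀ (r : ℕ) (X : GLr (MonoidAlgebra ℤ H) r),
      B K r (GLr.map (zg φ) r X) = (B H r X).pull u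

/-- The class `f` on the centraliser of `H` is locally detected: for every finitely generated subgroup
`G'` of `G` containing `H` the restriction of `f` to the centraliser of `H` in `G'` is detected. -/
def LDet {m : ℕ} {G : Type} [Group G] {H : Subgroup G} (f : Coh m (CG H)) : Prop :=
  ∀ (G' : Subgroup G) (i : ↥(CG H ⊓ G') →* CG H), G'.FG → H ≤ G' → (∀ z, (i z : G) = z) →
    Det (f.pull i)

/-- The values at the finite cyclic subgroups `H ≠ 1` are locally detected. -/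
def SrcFun.IsDet {n : ℕ} {G : Type} [Group G] (s : SrcFun n G) : Prop :=
  ∀ H : Subgroup G, Finite H → IsCyclic H → H ≠ ⊥ →
    (∀ (r : ℕ) (e : Matrix (Fin r) (Fin r) (LG H)), e * e = e → LDet (s.A H r e)) ∧
    ∀ (r : ℕ) (X : GLr (MonoidAlgebra ℤ H) r), LDet (s.B H r X)

/-- For every finitely generated subgroup `G'` of `G` and every prime `p` the `p`-parts of the orders of the
torsion elements of `G'` are bounded. -/
def LPBd (G : Type) [Group G] : Prop :=
  ∀ G' : Subgroup G, G'.FG → ∀ p : ℕ, p.Prime → ∃ c : ℕ, ∀ h : G', IsOfFinOrder h →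
    ¬ p ^ c ∣ orderOf h

/-! ## The assembly map -/

/-- The shuffle product `[g] × x` of the 1-chain `[g]` and an inhomogeneous chain `x`:
`(a_1, …, a_m) ↦ ∑ i, (-1)^i (a_1, …, a_i, g, a_(i+1), …, a_m)`.  (If `g` commutes with the entries of a cycle
`x`, this is a cycle.) -/
def ins (m : ℕ) {Q : Type} (g : Q) (x : (Fin m → Q) →₀ ℚ) : (Fin (m + 1) → Q) →₀ ℚ :=
  x.sum fun a r => ∑ i : Fin (m + 1),
    Finsupp.single (Fin.insertNth (α := fun _ => Q) i g a) ((-1 : ℚ) ^ (i : ℕ) * r)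

/-- The part `t = 0`: `F ([t] × c) = f c` for `c` in `H_n(G; ℚ)`. -/
def ExtZ {n : ℕ} {G : Type} [Group G] (f : Coh n G) (F : Coh (n + 1) (GLr (LG G) 1)) : Prop :=
  ∃ t : GLr (LG G) 1, t.mat = Matrix.scalar (Fin 1) (tk G 1) ∧
    ∀ (x : (Fin n → G) →₀ ℚ) (c : Hm ℚ n G), Cls x c → ∃ c' : Hm ℚ (n + 1) (GLr (LG G) 1),
      Cls (ins n t (x.mapDomain fun a i => gr 1 (a i))) c' ∧ F.ev c' = f.ev c

/-- The part `t = -1`: for a finite subgroup `H` and an idempotent matrix `e` over `ℤ[H][t,t⁻¹]` with image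
`E` over `ℤ[G][t,t⁻¹]`, the pull-back of the functional along the homomorphism `z ↦ z E + 1 - E` from
`Z_G(H)` to `GL_r(ℤ[G][t,t⁻¹])` is `A H r e`. -/
def ExtA {n : ℕ} {G : Type} [Group G]
    (A : ∀ (H : Subgroup G) (r : ℕ), Matrix (Fin r) (Fin r) (LG H) → Coh n (CG H))
    (F : ∀ r : ℕ, Coh n (GLr (LG G) r)) : Prop :=
  ∀ (H : Subgroup G) (r : ℕ) (e : Matrix (Fin r) (Fin r) (LG H)), Finite H → e * e = e →
    ∃ s : CG H →* GLr (LG G) r,
      (∀ z, (s z).mat = (gr r (z : G)).mat * e.map (lg H.subtype) + (1 - e.map (lg H.subtype))) ∧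
      (F r).pull s = A H r e

/-- The part `t = 1`, for `n = m + 1`: `F ([t] × [X] × c) = B H r X c` for a finite subgroup `H`, `X` in
`GL_r(ℤ[H])` and `c` in `H_m(Z_G(H); ℚ)`. -/
def ExtB {G : Type} [Group G] : (n : ℕ) →
    (∀ (H : Subgroup G) (r : ℕ), GLr (MonoidAlgebra ℤ H) r → Coh (n - 1) (CG H)) →
    (∀ r : ℕ, Coh (n + 1) (GLr (LG G) r)) → Prop
  | 0, _, _ => True
  | m + 1, B, F => ∀ (H : Subgroup G) (r : ℕ) (X : GLr (MonoidAlgebra ℤ H) r), Finite H →
      ∃ t : GLr (LG G) r, t.mat = Matrix.scalar (Fin r) (tk G 1) ∧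
        ∀ (x : (Fin m → CG H) →₀ ℚ) (c : Hm ℚ m (CG H)), Cls x c →
          ∃ c' : Hm ℚ (m + 2) (GLr (LG G) r),
            Cls (ins (m + 1) t (ins m (GLr.map (cc.comp (zg H.subtype)) r X)
              (x.mapDomain fun a i => gr r (a i : G)))) c' ∧ (F r).ev c' = (B H r X).ev c

/-- The composition of the functional `F` on `K_n(ℤ[G]) ⊗ ℚ` with the assembly map is `s`. -/
def Ext {n : ℕ} {G : Type} [Group G] (s : SrcFun n G)
    (F : ∀ r : ℕ, Coh (n + 1) (GLr (LG G) r)) : Prop :=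
  ExtZ s.f (F 1) ∧ ExtA s.A F ∧ ExtB n s.B F

/-- The final statement. -/
def Main : Prop :=
  (∀ (G : Type) [Group G], WhInj G) ∧
  ∀ (G : Type) [Group G] (n : ℕ),
    (∀ F : ∀ r : ℕ, Coh (n + 1) (GLr (LG G) r), IsKn F → ∃ s : SrcFun n G, Ext s F) ∧
    ((n ≤ 2 ∨ LPBd G) → ∀ s : SrcFun n G, s.IsDet →
      ∃ F : ∀ r : ℕ, Coh (n + 1) (GLr (LG G) r), IsKn F ∧ Ext s F)

end Pool.Agent.FJL.Lit
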