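import Pool.Agent.FJL.St4

/-!
# FJL_AFA: the family attached to `A`
-/

set_option autoImplicit false
set_option linter.unusedSectionVars false

open Matrix Pool.Agent.WhK Pool.Agent.Lib25 CategoryTheory Pool.Agent.FJA

noncomputable section

namespace Pool.Agent.FJL

/-- The homomorphism `j` as a homomorphism to the centraliser of the range of `φ`. -/
def jh {G C P : Type} [Group G] [Group C] [Group P] (φ : C →* G) (j : P →* G)
    (H : ∀ z c, Commute (j z) (φ c)) : P →* Dual.CG φ.range :=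
  j.codRestrict (Dual.CG φ.range) fun z => by
    rw [Subgroup.mem_centralizer_iff]
    rintro _ ⟨c, rfl⟩
    exact (H z c).symm

theorem jh_coe {G C P : Type} [Group G] [Group C] [Group P] (φ : C →* G) (j : P →* G)
    (H : ∀ z c, Commute (j z) (φ c)) (z : P) : (jh φ j H z : G) = j z := rfl

/-- The maps between the groups and the centralisers given by an element `g`. -/
theorem exists_cnj {G C P : Type} [Group G] [Group C] [Group P] (φ : C →* G) (j : P →* G)
    (H : ∀ z c, Commute (j z) (φ c)) (K : Subgroup G) (ψ : C →* K) (u : P →* Dual.CG K) (g : G)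
    (h1 : ∀ c, (ψ c : G) = g * φ c * g⁻¹) (h2 : ∀ z, j z = g⁻¹ * u z * g) :
    ∃ (φ1 : φ.range →* K) (u1 : Dual.CG K →* Dual.CG φ.range), Dual.Cnj g φ1 u1 ∧
      ψ = φ1.comp φ.rangeRestrict ∧ jh φ j H = u1.comp u := by
  have e1 : ∀ y : φ.range, ((MulAut.conj g).toMonoidHom.comp φ.range.subtype) y ∈ K := by
    rintro ⟨_, c, rfl⟩
    change g * φ c * g⁻¹ ∈ K
    rw [← h1]
    exact (ψ c).2
  have e2 : ∀ z : Dual.CG K, ((MulAut.conj g⁻¹).toMonoidHom.comp (Dual.CG K).subtype) z ∈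
      Dual.CG φ.range := by
    intro z
    rw [Subgroup.mem_centralizer_iff]
    rintro _ ⟨c, rfl⟩
    have h3 := Subgroup.mem_centralizer_iff.1 z.2 (ψ c : G) (ψ c).2
    rw [h1] at h3
    change φ c * (g⁻¹ * (z : G) * g⁻¹⁻¹) = g⁻¹ * (z : G) * g⁻¹⁻¹ * φ c
    rw [inv_inv]
    calc φ c * (g⁻¹ * (z : G) * g) = g⁻¹ * (g * φ c * g⁻¹ * (z : G)) * g := by group
      _ = g⁻¹ * ((z : G) * (g * φ c * g⁻¹)) * g := by rw [h3]
      _ = g⁻¹ * (z : G) * g * φ c := by group
  refine ⟨((MulAut.conj g).toMonoidHom.comp φ.range.subtype).codRestrict K e1,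
    ((MulAut.conj g⁻¹).toMonoidHom.comp (Dual.CG K).subtype).codRestrict (Dual.CG φ.range) e2,
    ⟨fun x => rfl, fun z => ?_⟩, ?_, ?_⟩
  · change g⁻¹ * (z : G) * g⁻¹⁻¹ = g⁻¹ * (z : G) * g
    rw [inv_inv]
  · ext c
    exact h1 c
  · ext z
    change j z = g⁻¹ * (u z : G) * g⁻¹⁻¹
    rw [inv_inv, h2]

theorem finite_range' {G C : Type} [Group G] [Group C] [Finite C] (φ : C →* G) :
    Finite φ.range := Finite.of_surjective φ.rangeRestrict φ.rangeRestrict_surjective

namespace AFA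

variable {G : Type} [Group G] {n : ℕ}

/-- The maps of the finite subgroups. -/
theorem exists_a (hKNL : S_KNL)
    (A : ∀ (H : Subgroup G) (r : ℕ), Matrix (Fin r) (Fin r) (OD.LG H) →
      OD.Coh (n + 1) (Dual.CG H)) (hA : Dual.IsA A) (H : Subgroup G) :
    ∃ a : KNegOne (MonoidAlgebra ℤ H) →+ (HQ (n + 1) (Dual.CG H) →ₗ[ℚ] ℚ),
      Finite H → ∀ (e : IdemMat (LaurentPolynomial (MonoidAlgebra ℤ H)))
        (c : HQ (n + 1) (Dual.CG H)), a (KNegOne.of e) c = (A H e.n e.mat).ev c := by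
  by_cases hH : Finite H
  · obtain ⟨l, hl⟩ := hKNL (MonoidAlgebra ℤ H) (OD.Coh (n + 1) (Dual.CG H)) (A H)
      (hA.1 H hH)
    refine ⟨(show KNegOne (MonoidAlgebra ℤ H) →+ (HQ (n + 1) (Dual.CG H) →ₗ[ℚ] ℚ) from l),
      fun _ e c => ?_⟩
    exact congrArg (fun f : OD.Coh (n + 1) (Dual.CG H) => f.ev c) (hl e)
  · exact ⟨0, fun h => absurd h hH⟩

end AFA

theorem t_AFA (hKNL : S_KNL) : S_AFA := by
  intro n G _ A hA
  choose a ha using AFA.exists_a hKNL A hA
  -- compatibility with the conjugations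
  have hcnj : ∀ (H H' : Subgroup G) (g : G) (φ : H →* H') (u : Dual.CG H' →* Dual.CG H),
      Finite H → Finite H' → Dual.Cnj g φ u → ∀ (x : KNegOne (MonoidAlgebra ℤ H))
        (c : HQ (n + 1) (Dual.CG H')), a H' (Km φ x) c = a H x (HQ.map (n + 1) u c) := by
    intro H H' g φ u hH hH' hc x c
    obtain ⟨e, rfl⟩ := KNegOne.exists_of x
    rw [KNegOne.map_of, ha H hH, ha H' hH']
    exact congrArg (fun f : OD.Coh (n + 1) (Dual.CG H') => f.ev c)
      (hA.2 H H' g φ u hH hH' hc e.n e.mat e.idem)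
  let E : FamA n G := fun C P _ _ φ j H =>
    { toFun := fun x => a φ.range (Km φ.rangeRestrict x) ∘ₗ HQ.map (n + 1) (jh φ j H)
      map_zero' := by rw [map_zero, map_zero, LinearMap.zero_comp]
      map_add' := fun x y => by rw [map_add, map_add, LinearMap.add_comp] }
  have hE : ∀ (C P : Type) [Group C] [Group P] (φ : C →* G) (j : P →* G)
      (H : ∀ z c, Commute (j z) (φ c)) (x : KNegOne (MonoidAlgebra ℤ C)) (c : HQ (n + 1) P),
      E C P φ j H x c = a φ.range (Km φ.rangeRestrict x) (HQ.map (n + 1) (jh φ j H) c) :=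
    fun C P _ _ φ j H x c => rfl
  -- the general lemma
  have key : ∀ (C P : Type) [Group C] [Group P] [Finite C] (φ : C →* G) (j : P →* G)
      (H : ∀ z c, Commute (j z) (φ c)) (K : Subgroup G), Finite K → ∀ (ψ : C →* K)
      (u : P →* Dual.CG K) (g : G), (∀ c, (ψ c : G) = g * φ c * g⁻¹) →
      (∀ z, j z = g⁻¹ * u z * g) → ∀ (x : KNegOne (MonoidAlgebra ℤ C)) (c : HQ (n + 1) P),
      E C P φ j H x c = a K (Km ψ x) (HQ.map (n + 1) u c) := by
    intro C P _ _ _ φ j H K hK ψ u g h1 h2 x c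
    obtain ⟨φ1, u1, h3, h4, h5⟩ := exists_cnj φ j H K ψ u g h1 h2
    rw [hE, h5, HQ.map_comp, ← hcnj φ.range K g φ1 u1 (finite_range' φ) hK h3, Km_comp, ← h4]
  refine ⟨E, ⟨?_, ?_, ?_⟩, ?_⟩
  · intro C P Q _ _ _ _ φ j H f j' H' hj x c
    have h1 : jh φ j' H' = (jh φ j H).comp f := by
      ext z
      exact hj z
    rw [hE, hE, h1, HQ.map_comp]
  · intro C C' P _ _ _ _ _ φ j H α φ' H' hφ x c
    rw [key C' P φ' j H' φ.range (finite_range' φ) (φ.rangeRestrict.comp α) (jh φ j H) 1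
      (fun c => by rw [hφ, one_mul, inv_one, mul_one]; rfl)
      (fun z => by rw [jh_coe, inv_one, one_mul, mul_one]) x c, hE, Km_comp]
  · intro C P _ _ _ φ φ' j j' H H' g hφ hj x c
    rw [key C P φ j H φ'.range (finite_range' φ') φ'.rangeRestrict (jh φ' j' H') g
      (fun c => hφ c) (fun z => by rw [jh_coe, hj]; group) x c, hE]
  · intro K hK C P _ _ _ φ j H ψ u h1 h2 e c
    rw [key C P φ j H K hK ψ u 1 (fun c => by rw [h1, one_mul, inv_one, mul_one])
      (fun z => by rw [h2, inv_one, one_mul, mul_one]) (KNegOne.of e) c, KNegOne.map_of, ha K hK]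
    rfl

end Pool.Agent.FJL
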