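import Pool.Agent.FJL.St1

/-!
# BOX: the interface to FJB
-/

set_option autoImplicit false
set_option linter.unusedSectionVars false

open Matrix Pool.Agent.WhK Pool.Agent.Lib25 CategoryTheory Pool.Agent.FJA

noncomputable section

namespace Pool.Agent.FJL

namespace BOX

theorem exists_ext {V W : Type} [AddCommGroup V] [Module ℚ V] [AddCommGroup W] [Module ℚ W]
    (T : V →ₗ[ℚ] W) (Ψ : V →ₗ[ℚ] ℚ) (h : ∀ v, T v = 0 → Ψ v = 0) :
    ∃ Φ : W →ₗ[ℚ] ℚ, ∀ v, Φ (T v) = Ψ v := by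
  refine exists_fun (J := V) (fun v => T v) (fun v => Ψ v) ?_
  intro q hq
  have h1 : T (q.sum fun v r => r • v) = 0 := by
    rw [← hq]
    unfold Finsupp.sum
    rw [map_sum]
    exact Finset.sum_congr rfl fun v _ => map_smul _ _ _
  have h2 := h _ h1
  rw [← h2]
  unfold Finsupp.sum
  rw [map_sum]
  exact Finset.sum_congr rfl fun v _ => by rw [map_smul, smul_eq_mul]

/-- The functional on `SrcZ n G`. -/
def lamQ {n : ℕ} {G : Type} [Group G] (lam : HQ (n + 1) (G × Multiplicative ℤ) →ₗ[ℚ] ℚ)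
    (h : ∀ a ∈ inG n G, lam a = 0) : FJB.SrcZ n G →ₗ[ℚ] ℚ :=
  (inG n G).liftQ lam (fun a ha => LinearMap.mem_ker.2 (h a ha))

theorem lamQ_mk {n : ℕ} {G : Type} [Group G] (lam : HQ (n + 1) (G × Multiplicative ℤ) →ₗ[ℚ] ℚ)
    (h : ∀ a ∈ inG n G, lam a = 0) (a : HQ (n + 1) (G × Multiplicative ℤ)) :
    lamQ lam h (Submodule.Quotient.mk a) = lam a := rfl

theorem tauN_zero (n : ℕ) (G : Type) [Group G] : tauN n G 0 = 0 := by
  have h1 : tau n G 0 = 0 := map_zero _
  exact h1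

end BOX

open BOX in
theorem t_BOX : S_BOX := by
  obtain ⟨ε, hε⟩ := (FJB.s_all9).2
  choose T0 hT0 h1 h2' using hε
  choose A B hA hB hT' using hT0
  obtain ⟨T, hT, h2⟩ : ∃ T : ∀ (G : Type) [Group G] (n : ℕ),
      (FJB.SrcZ n G × SrcN n G × FJB.SrcO n G) →ₗ[ℚ] Kb n (MonoidAlgebra ℤ G),
      (∀ (G : Type) [Group G] (n : ℕ) (a : HQ (n + 1) (G × Multiplicative ℤ)) (x : SrcN n G)
        (y : FJB.SrcO n G), T G n (Submodule.Quotient.mk a, x, y) =
          tauN n G a + A G n x + B G n y) ∧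
      ∀ (G : Type) [Group G] (n : ℕ), (n ≤ 2 ∨ FJB.PBd G) → ∀ w, T G n w = 0 →
        w.1 = 0 ∧ w.2.1 ∈ UndN n G ∧ w.2.2 ∈ FJB.UndO n G :=
    ⟨fun G _ n => T0 G n, fun G _ n a x y => hT' G n a x y,
      fun G _ n hn w hw => (h2' G n hn).2 w hw⟩
  refine ⟨⟨ε, fun G _ n => A G n, fun G _ m => B G (m + 1), fun G _ n => hA G n,
    fun G _ m => hB G (m + 1), ?_, ?_⟩⟩
  · intro G _ lam La hlam hLa
    obtain ⟨Φ, hΦ⟩ := exists_ext (T G 0)
      (LinearMap.coprod (lamQ lam hlam) (LinearMap.coprod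
        (show SrcN 0 G →ₗ[ℚ] ℚ from La) (0 : FJB.SrcO 0 G →ₗ[ℚ] ℚ))) (by
      intro w hw
      obtain ⟨h3, h4, -⟩ := h2 G 0 (Or.inl (by norm_num)) w hw
      rw [LinearMap.coprod_apply, LinearMap.coprod_apply, h3, map_zero, LinearMap.zero_apply,
        zero_add, add_zero]
      exact hLa _ h4)
    refine ⟨Φ, fun a => ?_, fun x => ?_⟩
    · have h3 := hΦ (Submodule.Quotient.mk a, 0, 0)
      rw [hT, map_zero, map_zero, add_zero, add_zero, LinearMap.coprod_apply,
        LinearMap.coprod_apply, map_zero, map_zero, add_zero, add_zero] at h3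
      exact h3
    · have h3 := (congrArg Φ (hT G _ 0 x 0)).symm.trans (hΦ (Submodule.Quotient.mk 0, x, 0))
      rw [tauN_zero, map_zero, add_zero, zero_add, LinearMap.coprod_apply,
        LinearMap.coprod_apply, map_zero, add_zero] at h3
      rw [Submodule.Quotient.mk_zero, map_zero, zero_add] at h3
      exact h3
  · intro G _ m hm lam La Lb hlam hLa hLb
    obtain ⟨Φ, hΦ⟩ := exists_ext (T G (m + 1))
      (LinearMap.coprod (lamQ lam hlam) (LinearMap.coprod
        (show SrcN (m + 1) G →ₗ[ℚ] ℚ from La) (show FJB.SrcO (m + 1) G →ₗ[ℚ] ℚ from Lb))) (by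
      intro w hw
      obtain ⟨h3, h4, h5⟩ := h2 G (m + 1) (hm.imp (fun h => by omega) id) w hw
      rw [LinearMap.coprod_apply, LinearMap.coprod_apply, h3, map_zero, zero_add]
      have e1 : (show SrcN (m + 1) G →ₗ[ℚ] ℚ from La) w.2.1 = 0 := hLa _ h4
      have e2 : (show FJB.SrcO (m + 1) G →ₗ[ℚ] ℚ from Lb) w.2.2 = 0 := hLb _ h5
      rw [e1, e2, add_zero])
    refine ⟨Φ, fun a => ?_, fun x => ?_, fun y => ?_⟩
    · have h3 := hΦ (Submodule.Quotient.mk a, 0, 0)
      rw [hT, map_zero, map_zero, add_zero, add_zero, LinearMap.coprod_apply,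
        LinearMap.coprod_apply, map_zero, map_zero, add_zero, add_zero] at h3
      exact h3
    · have h3 := (congrArg Φ (hT G _ 0 x 0)).symm.trans (hΦ (Submodule.Quotient.mk 0, x, 0))
      rw [tauN_zero, map_zero, add_zero, zero_add, LinearMap.coprod_apply,
        LinearMap.coprod_apply, map_zero, add_zero] at h3
      rw [Submodule.Quotient.mk_zero, map_zero, zero_add] at h3
      exact h3
    · have h3 := (congrArg Φ (hT G (m + 1) 0 0 y)).symm.trans (hΦ (Submodule.Quotient.mk 0, 0, y))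
      rw [tauN_zero, map_zero, add_zero, zero_add, LinearMap.coprod_apply,
        LinearMap.coprod_apply, map_zero, zero_add] at h3
      rw [Submodule.Quotient.mk_zero, map_zero, zero_add] at h3
      exact h3

end Pool.Agent.FJL
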