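import Pool.Agent.FJL.St4

/-!
# DTU: detected classes vanish on the undetected homology classes
-/

set_option autoImplicit false
set_option linter.unusedSectionVars false

open Matrix Pool.Agent.WhK Pool.Agent.Lib25 CategoryTheory Pool.Agent.FJA

noncomputable section

namespace Pool.Agent.FJL

theorem t_DTU : S_DTU := by
  intro m Γ _ f hf c hc
  have h0 : ∀ {h : m = 0 ∨ Module.Finite ℤ (HZ m Γ)}, f.ev c = 0 := by
    intro h
    rw [und_fin h c hc]
    exact map_zero (show HQ m Γ →ₗ[ℚ] ℚ from f)
  rcases hf with h | h | h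
  · exact h0 (h := Or.inl h)
  · exact h0 (h := Or.inr h)
  · refine h c fun g hg => ?_
    refine hc (show HQ m Γ →ₗ[ℚ] ℚ from g) ?_
    intro z hz
    exact hg (hch m Γ z) (hcl m Γ z) ⟨z, rfl, rfl⟩ hz

end Pool.Agent.FJL
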