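import Pool.Agent.FJL.St4

/-!
# FKN: the classes of a functional on `K_n(ℤ[G]) ⊗ ℚ`
-/

set_option autoImplicit false
set_option linter.unusedSectionVars false

open Matrix Pool.Agent.WhK Pool.Agent.Lib25 CategoryTheory Pool.Agent.FJA

noncomputable section

namespace Pool.Agent.FJL

namespace FKN

theorem eq_pos {R : Type} [Ring R] (j : Polynomial R →+* LaurentPolynomial R)
    (h1 : ∀ x, j (Polynomial.C x) = LaurentPolynomial.C x)
    (h2 : j Polynomial.X = LaurentPolynomial.T 1) : j = posIncl R := by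
  refine Polynomial.ringHom_ext (fun a => ?_) ?_
  · rw [h1]
    exact (Polynomial.toLaurent_C a).symm
  · rw [h2]
    exact Polynomial.toLaurent_X.symm

theorem eq_neg {R : Type} [Ring R] (j : Polynomial R →+* LaurentPolynomial R)
    (h1 : ∀ x, j (Polynomial.C x) = LaurentPolynomial.C x)
    (h2 : j Polynomial.X = LaurentPolynomial.T (-1)) : j = negIncl R := by
  refine Polynomial.ringHom_ext (fun a => ?_) ?_
  · rw [h1]
    have h3 : posIncl R (Polynomial.C a) = AddMonoidAlgebra.single 0 a :=
      Polynomial.toLaurent_C a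
    unfold negIncl
    rw [RingHom.comp_apply, h3, flipT_single]
    rfl
  · rw [h2]
    have h3 : posIncl R Polynomial.X = AddMonoidAlgebra.single 1 1 := Polynomial.toLaurent_X
    unfold negIncl
    rw [RingHom.comp_apply, h3, flipT_single]
    rfl

end FKN

open FKN in
theorem t_FKN : S_FKN := by
  intro n G _ Φ
  refine ⟨fun a b => ?_, fun j h1 h2 r => ?_⟩
  · refine ⟨bsumHom (LaurentPolynomial (MonoidAlgebra ℤ G)) a b, fun X => rfl, ?_⟩
    refine LinearMap.ext fun c => ?_
    change Φ (KB.mk n _ (a + b) (HQ.map (n + 1) (bsumHom _ a b) c)) =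
      Φ (KB.mk n _ a (HQ.map (n + 1) (MonoidHom.fst _ _) c)) +
      Φ (KB.mk n _ b (HQ.map (n + 1) (MonoidHom.snd _ _) c))
    rw [← map_add]
    exact congrArg Φ (FJB.WHX.KB_block n a b c)
  · refine LinearMap.ext fun c => ?_
    change Φ (KB.mk n _ r (HQ.map (n + 1) (glm j r) c)) = 0
    rcases h2 with h2 | h2
    · rw [eq_pos j h1 h2]
      exact (congrArg Φ (KB_mk_pos n r c)).trans (map_zero Φ)
    · rw [eq_neg j h1 h2]
      exact (congrArg Φ (KB_mk_neg n r c)).trans (map_zero Φ)

end Pool.Agent.FJL
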