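import Pool.Agent.FJL.St1

/-!
# FJL, GEN: functionals on `K_{-1}` of finite groups which vanish on the induced universal classes (helper62)
-/

set_option autoImplicit false
set_option linter.unusedSectionVars false

open Matrix Pool.Agent.WhK Pool.Agent.Lib25 CategoryTheory Pool.Agent.FJA

noncomputable section

namespace Pool.Agent.FJL

/-- FJL_GEN. -/
theorem t_GEN (hFIC : KM.StA_FIC.{0}) : S_GEN := by
  intro β hT H _ _ l hl
  refine hFIC H l fun N hN φ hφ x => ?_
  have hN0 : NeZero N := ⟨hN.ne'⟩
  have h := hT N (l.comp (Km φ)) (by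
    intro M hM p hp hpM ψ hψ
    change l (Km φ (Km ψ (kap β M p))) = 0
    rw [Km_comp]
    exact hl M hM p hp hpM (φ.comp ψ) (hφ.comp hψ))
  exact DFunLike.congr_fun h x

end Pool.Agent.FJL
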