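import Pool.Agent.FJL.St1
import Pool.Agent.FJA.Avg

/-!
# FJL_INV: the values of the functionals on the Galois conjugates of the universal classes
-/

set_option autoImplicit false
set_option linter.unusedSectionVars false

open Matrix Pool.Agent.WhK Pool.Agent.Lib25 CategoryTheory Pool.Agent.FJA

noncomputable section

namespace Pool.Agent.FJL

namespace INV

variable {N : ℕ}

/-- the homomorphism `z ↦ (1, z)` to the centraliser of `h` -/
def fZ (h : Cyc N × Multiplicative ℤ) : Multiplicative ℤ →* Cen h where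
  toFun z := ⟨(1, z), by
    rw [Subgroup.mem_centralizer_singleton_iff]
    exact mul_comm _ _⟩
  map_one' := rfl
  map_mul' x y := by
    apply Subtype.ext
    apply Prod.ext
    · exact (one_mul (1 : Cyc N)).symm
    · rfl

/-- the symbol of `h` and the class of the generator of `ℤ` -/
def SZ (p : ℕ) (h : Cyc N × Multiplicative ℤ) : Src 0 (Cyc N × Multiplicative ℤ) :=
  sym p h (HQ.map 1 (fZ h) cZ)

theorem map_cHom (h : Cyc N × Multiplicative ℤ) {h' : Cyc N × Multiplicative ℤ}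
    (hh : h' ∈ Subgroup.zpowers h) :
    HQ.map 1 (cHom 1 (cHom_pow h hh)) (HQ.map 1 (fZ h) cZ) = HQ.map 1 (fZ h') cZ := by
  rw [← HQ.map_comp]
  congr 1
  congr 1
  refine MonoidHom.ext fun z => ?_
  apply Subtype.ext
  change (1 : Cyc N × Multiplicative ℤ) * (1, z) * 1⁻¹ = (1, z)
  rw [one_mul, inv_one, mul_one]

theorem pG_eq (β : Box) (p : ℕ) (hN : 0 < N) (hp : p.Prime) (hpN : p ∣ N)
    (φ : Cyc N →* Cyc N × Multiplicative ℤ) (hφ : Function.Injective φ)
    (H : ∀ z c, Commute (MonoidHom.inr (Cyc N) (Multiplicative ℤ) z) (φ c)) :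
    pG 0 φ (MonoidHom.inr (Cyc N) (Multiplicative ℤ)) H (kap β N p) cZ =
      β.A (Cyc N × Multiplicative ℤ) 0 (SZ p (φ (gen N))) := by
  unfold SZ
  rw [Box.A_sym β 0 N p φ _ hN hp hpN hφ]
  exact pG_comp 0 φ (Cen (φ (gen N))).subtype (commute_cyc φ) (fZ (φ (gen N))) _ H
    (fun z => rfl) _ _

theorem lz_Tw [NeZero N] (β : Box) (p : ℕ) (hp : p.Prime) (hpN : p ∣ N) (w : (ZMod N)ˣ) :
    lz (Cyc N) (Tw N w (kap β N p)) = β.A (Cyc N × Multiplicative ℤ) 0
      (SZ p ((MonoidHom.inl (Cyc N) (Multiplicative ℤ)) (gen N) ^ (w : ZMod N).val)) := by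
  have hN : 0 < N := Nat.pos_of_ne_zero (NeZero.ne N)
  have H' : ∀ z c, Commute (MonoidHom.inr (Cyc N) (Multiplicative ℤ) z)
      (((MonoidHom.inl (Cyc N) (Multiplicative ℤ)).comp (pw N w)) c) :=
    fun z c => commZ (Cyc N) z _
  have h1 := pG_map 0 (MonoidHom.inl (Cyc N) (Multiplicative ℤ))
    (MonoidHom.inr (Cyc N) (Multiplicative ℤ)) (commZ (Cyc N)) (pw N w) _ H' rfl (kap β N p) cZ
  have h2 : lz (Cyc N) (Tw N w (kap β N p)) =
      pG 0 (MonoidHom.inl (Cyc N) (Multiplicative ℤ))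
        (MonoidHom.inr (Cyc N) (Multiplicative ℤ)) (commZ (Cyc N)) (Km (pw N w) (kap β N p)) cZ :=
    rfl
  have hinj : Function.Injective ((MonoidHom.inl (Cyc N) (Multiplicative ℤ)).comp (pw N w)) := by
    intro a b hab
    exact inj_pw w (congrArg Prod.fst hab)
  rw [h2, ← h1, pG_eq β p hN hp hpN _ hinj H', pw_gen]

theorem lz_kap [NeZero N] (β : Box) (p : ℕ) (hp : p.Prime) (hpN : p ∣ N) :
    lz (Cyc N) (kap β N p) = β.A (Cyc N × Multiplicative ℤ) 0
      (SZ p ((MonoidHom.inl (Cyc N) (Multiplicative ℤ)) (gen N))) := by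
  have hN : 0 < N := Nat.pos_of_ne_zero (NeZero.ne N)
  have hinj : Function.Injective (MonoidHom.inl (Cyc N) (Multiplicative ℤ)) := by
    intro a b hab
    exact congrArg Prod.fst hab
  exact pG_eq β p hN hp hpN _ hinj (commZ (Cyc N))

theorem orderOf_inl [NeZero N] :
    orderOf ((MonoidHom.inl (Cyc N) (Multiplicative ℤ)) (gen N)) = N := by
  have hN : 0 < N := Nat.pos_of_ne_zero (NeZero.ne N)
  refine orderOf_cyc hN _ ?_
  intro a b hab
  exact congrArg Prod.fst hab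

theorem mkQ_zero {x : Sym 0 (Cyc N × Multiplicative ℤ) →₀ ℚ}
    (hx : Rel 0 (Cyc N × Multiplicative ℤ) x) :
    (Submodule.span ℚ {x | Rel 0 (Cyc N × Multiplicative ℤ) x}).mkQ x = 0 := by
  rw [Submodule.mkQ_apply, Submodule.Quotient.mk_eq_zero]
  exact Submodule.subset_span hx

theorem SZ_frob [NeZero N] (p : ℕ) (hp : p.Prime) (hpN : p ∣ N) (w : (ZMod N)ˣ)
    (hw : uRel N p w 1) :
    SZ p ((MonoidHom.inl (Cyc N) (Multiplicative ℤ)) (gen N) ^ (w : ZMod N).val) =
      SZ p ((MonoidHom.inl (Cyc N) (Multiplicative ℤ)) (gen N)) := by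
  set h : Cyc N × Multiplicative ℤ := (MonoidHom.inl (Cyc N) (Multiplicative ℤ)) (gen N) with hh
  have hN : 0 < N := Nat.pos_of_ne_zero (NeZero.ne N)
  have hord : orderOf h = N := orderOf_inl
  have hone : h ^ N = 1 := by
    have := pow_orderOf_eq_one h
    rwa [hord] at this
  have hmem : h ^ (w : ZMod N).val ∈ Subgroup.zpowers h :=
    Subgroup.pow_mem _ (Subgroup.mem_zpowers h) _
  have hback : h ∈ Subgroup.zpowers (h ^ (w : ZMod N).val) := by
    have h1 : (h ^ (w : ZMod N).val) ^ ((w⁻¹ : (ZMod N)ˣ) : ZMod N).val = h := by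
      rw [← pow_val_mul hone, mul_inv_cancel w, pow_val_one hone]
    have h2 := Subgroup.pow_mem _ (Subgroup.mem_zpowers (h ^ (w : ZMod N).val))
      ((w⁻¹ : (ZMod N)ˣ) : ZMod N).val
    rw [h1] at h2
    exact h2
  obtain ⟨j, k, hjk⟩ := hw
  have hpow : h ^ p ^ k = (h ^ (w : ZMod N).val) ^ p ^ j := by
    rw [← pow_mul, pow_eq_pow_iff_modEq, hord, ← ZMod.natCast_eq_natCast_iff]
    push_cast
    rw [ZMod.natCast_zmod_val, hjk, Units.val_one, one_mul]
  have hadm : Adm p h := ⟨hp, by rw [← orderOf_pos_iff, hord]; exact hN, by rw [hord]; exact hpN⟩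
  have h1 := mkQ_zero (Rel.frob p h (h ^ (w : ZMod N).val) hmem k j
    (HQ.map 1 (fZ h) cZ) hadm hback hpow)
  rw [map_sub, sub_eq_zero, map_cHom h hmem] at h1
  exact h1

theorem SZ_sum [NeZero N] :
    ∑ p ∈ N.primeFactors, ∑ w : (ZMod N)ˣ,
      SZ p ((MonoidHom.inl (Cyc N) (Multiplicative ℤ)) (gen N) ^ (w : ZMod N).val) = 0 := by
  set h : Cyc N × Multiplicative ℤ := (MonoidHom.inl (Cyc N) (Multiplicative ℤ)) (gen N) with hh
  have hN : 0 < N := Nat.pos_of_ne_zero (NeZero.ne N)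
  have hord : orderOf h = N := orderOf_inl
  have hfin : IsOfFinOrder h := by
    rw [← orderOf_pos_iff, hord]
    exact hN
  have h1 := mkQ_zero (Rel.sum h (HQ.map 1 (fZ h) cZ) hfin)
  rw [map_sum] at h1
  rw [← h1, hord]
  refine Finset.sum_congr rfl fun p hp => ?_
  rw [map_sum]
  refine Finset.sum_bij (fun (u : (ZMod N)ˣ) _ => (u : ZMod N).val) ?_ ?_ ?_ ?_
  · intro u _
    rw [Finset.mem_filter, Finset.mem_range]
    exact ⟨ZMod.val_lt _, ZMod.val_coe_unit_coprime u⟩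
  · intro u _ v _ huv
    exact Units.ext (ZMod.val_injective _ huv)
  · intro a ha
    rw [Finset.mem_filter, Finset.mem_range] at ha
    refine ⟨ZMod.unitOfCoprime a ha.2, Finset.mem_univ _, ?_⟩
    rw [ZMod.coe_unitOfCoprime, ZMod.val_natCast, Nat.mod_eq_of_lt ha.1]
  · intro u _
    rw [map_cHom h (Subgroup.pow_mem _ (Subgroup.mem_zpowers h) _)]
    rfl

end INV

open INV in
theorem t_INV : S_INV := by
  intro β hTB N _ l
  obtain ⟨F, hF⟩ := hTB N l
  constructor
  · intro p hp hpN w hw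
    rw [hF, hF, lz_Tw β p hp hpN w, lz_kap β p hp hpN, SZ_frob p hp hpN w hw]
  · have h1 : ∀ q ∈ N.primeFactors, ∀ w : (ZMod N)ˣ, l (Tw N w (kap β N q)) =
        F (β.A (Cyc N × Multiplicative ℤ) 0
          (SZ q ((MonoidHom.inl (Cyc N) (Multiplicative ℤ)) (gen N) ^ (w : ZMod N).val))) := by
      intro q hq w
      rw [hF, lz_Tw β q (Nat.prime_of_mem_primeFactors hq) (Nat.dvd_of_mem_primeFactors hq) w]
    rw [Finset.sum_congr rfl fun q hq => Finset.sum_congr rfl fun w _ => h1 q hq w]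
    have h2 := congrArg (fun x => F (β.A (Cyc N × Multiplicative ℤ) 0 x)) (SZ_sum (N := N))
    simp only [map_sum, map_zero] at h2
    exact h2

end Pool.Agent.FJL
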