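import Pool.Agent.FJL.St4

/-!
# Homomorphisms out of `K_{-1}` from functions on idempotent matrices
-/

set_option autoImplicit false
set_option linter.unusedSectionVars false

open Matrix Pool.Agent.WhK Pool.Agent.Lib25 CategoryTheory Pool.Agent.FJA

noncomputable section

namespace Pool.Agent.FJL

namespace KNL

variable {R W : Type} [Ring R] [AddCommGroup W]
  {A : ∀ r : ℕ, Matrix (Fin r) (Fin r) (LaurentPolynomial R) → W}

theorem val_zero (hA : Dual.IsKm1 A) (z : Matrix (Fin 0) (Fin 0) (LaurentPolynomial R)) :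
    A 0 z = 0 := by
  have h : A 0 (Dual.bs z z) = A 0 z + A 0 z :=
    hA.2.1 0 0 z z (Subsingleton.elim _ _) (Subsingleton.elim _ _)
  have h2 : (Dual.bs z z : Matrix (Fin 0) (Fin 0) (LaurentPolynomial R)) = z := by
    funext i
    exact Fin.elim0 i
  rw [h2] at h
  have h3 : A 0 z + A 0 z = A 0 z + 0 := by rw [← h, add_zero]
  exact add_left_cancel h3

/-- The homomorphism on classes. -/
def liftI (hA : Dual.IsKm1 A) : IdemClass (LaurentPolynomial R) →+ W where
  toFun := Quotient.lift (fun e : IdemMat (LaurentPolynomial R) => A e.n e.mat) (by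
    rintro e f ⟨x, y, hx, hy⟩
    rw [← hx, ← hy]
    exact hA.1 e.n f.n x y (by rw [hx, e.idem]) (by rw [hy, f.idem]))
  map_zero' := val_zero hA _
  map_add' := by
    rintro ⟨e⟩ ⟨f⟩
    exact hA.2.1 e.n f.n e.mat f.mat e.idem f.idem

/-- The homomorphism on `K₀`. -/
def liftK (hA : Dual.IsKm1 A) : K0 (LaurentPolynomial R) →+ W :=
  Algebra.GrothendieckAddGroup.lift (liftI hA)

theorem liftK_of (hA : Dual.IsKm1 A) (e : IdemMat (LaurentPolynomial R)) :
    liftK hA (K0.of e) = A e.n e.mat := by
  unfold liftK K0.of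
  exact congrArg (fun F => F (IdemClass.mk e)) ((Algebra.GrothendieckAddGroup.lift
    (M := IdemClass (LaurentPolynomial R)) (G := W)).symm_apply_apply (liftI hA))

theorem pos_C (x : R) : posIncl R (Polynomial.C x) = LaurentPolynomial.C x := by
  unfold posIncl
  exact Polynomial.toLaurent_C x

theorem pos_X : posIncl R Polynomial.X = LaurentPolynomial.T 1 := by
  unfold posIncl
  exact Polynomial.toLaurent_X

theorem flip_single (n : ℤ) (x : R) :
    flipT R (AddMonoidAlgebra.single n x) = AddMonoidAlgebra.single (-n) x := by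
  unfold flipT
  exact AddMonoidAlgebra.mapDomain_single

theorem neg_C (x : R) : negIncl R (Polynomial.C x) = LaurentPolynomial.C x := by
  unfold negIncl
  rw [RingHom.comp_apply, pos_C]
  have h := flip_single (0 : ℤ) x
  rw [neg_zero] at h
  exact h

theorem neg_X : negIncl R Polynomial.X = LaurentPolynomial.T (-1) := by
  unfold negIncl
  rw [RingHom.comp_apply, pos_X]
  exact flip_single (1 : ℤ) (1 : R)

theorem liftK_map (hA : Dual.IsKm1 A) (j : Polynomial R →+* LaurentPolynomial R)
    (hC : ∀ x, j (Polynomial.C x) = LaurentPolynomial.C x)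
    (hX : j Polynomial.X = LaurentPolynomial.T 1 ∨ j Polynomial.X = LaurentPolynomial.T (-1))
    (x : K0 (Polynomial R)) : liftK hA (K0.map j x) = 0 := by
  obtain ⟨e, f, rfl⟩ := K0.exists_sub x
  rw [map_sub, K0.map_of, K0.map_of, map_sub, liftK_of, liftK_of]
  have h : ∀ e : IdemMat (Polynomial R), A (e.map j).n (e.map j).mat = 0 := fun e =>
    hA.2.2 j hC hX e.n e.mat e.idem
  rw [h e, h f, sub_self]

theorem ext_le (hA : Dual.IsKm1 A) : extImage R ≤ (liftK hA).ker := by
  unfold extImage
  rw [sup_le_iff]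
  constructor
  · rintro _ ⟨x, rfl⟩
    exact liftK_map hA (posIncl R) pos_C (Or.inl pos_X) x
  · rintro _ ⟨x, rfl⟩
    exact liftK_map hA (negIncl R) neg_C (Or.inr neg_X) x

end KNL

theorem t_KNL : S_KNL := by
  intro R W _ _ A hA
  refine ⟨QuotientAddGroup.lift (extImage R) (KNL.liftK hA) (KNL.ext_le hA), fun e => ?_⟩
  exact KNL.liftK_of hA e

end Pool.Agent.FJL
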