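import Pool.Agent.FJL.St4

/-!
# FJL_LDA: local detection
-/

set_option autoImplicit false
set_option linter.unusedSectionVars false

open Matrix Pool.Agent.WhK Pool.Agent.Lib25 CategoryTheory Pool.Agent.FJA

noncomputable section

namespace Pool.Agent.FJL

namespace LDA

variable {G : Type} [Group G] (G' : Subgroup G) {N : ℕ} (φ : Cyc N →* G')

/-- The image in `G` of the cyclic group. -/
abbrev K : Subgroup G := (G'.subtype.comp φ).range

theorem K_fc (hN : 1 < N) (hφ : Function.Injective φ) : Dual.Fc (K G' φ) := by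
  haveI : NeZero N := ⟨by omega⟩
  have hs := (G'.subtype.comp φ).rangeRestrict_surjective
  refine ⟨Finite.of_surjective _ hs, isCyclic_of_surjective (G'.subtype.comp φ).rangeRestrict hs,
    fun h => ?_⟩
  have h1 : (G'.subtype.comp φ) (gen N) ∈ K G' φ := ⟨gen N, rfl⟩
  rw [h, Subgroup.mem_bot] at h1
  have h2 : φ (gen N) = φ 1 := by
    rw [map_one]
    exact Subtype.ext h1
  have h3 : (1 : ZMod N) = 0 := congrArg Multiplicative.toAdd (hφ h2)
  haveI : Fact (1 < N) := ⟨hN⟩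
  exact one_ne_zero h3

theorem K_le : K G' φ ≤ G' := by
  rintro _ ⟨c, rfl⟩
  exact (φ c).2

theorem mem_inf (z : Cen (φ (gen N))) :
    (G'.subtype.comp (Cen (φ (gen N))).subtype) z ∈ Dual.CG (K G' φ) ⊓ G' := by
  refine ⟨?_, (z : G').2⟩
  change _ ∈ Subgroup.centralizer (K G' φ : Set G)
  rw [Subgroup.mem_centralizer_iff]
  rintro _ ⟨c, rfl⟩
  exact ((commute_cyc φ z c).map G'.subtype).symm

/-- The centraliser in `G'` as a subgroup of the intersection. -/
def k : Cen (φ (gen N)) →* ↥(Dual.CG (K G' φ) ⊓ G') :=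
  (G'.subtype.comp (Cen (φ (gen N))).subtype).codRestrict _ (mem_inf G' φ)

/-- The inclusion of the intersection in the centraliser. -/
def i : ↥(Dual.CG (K G' φ) ⊓ G') →* Dual.CG (K G' φ) := Subgroup.inclusion inf_le_left

theorem zero (hDTU : S_DTU) (hUDM : S_UDM) {m : ℕ} (hFG : G'.FG)
    (f : OD.Coh m (Dual.CG (K G' φ))) (hf : Dual.LDet f) (c : HQ m (Cen (φ (gen N))))
    (hc : Und m (Cen (φ (gen N))) c) :
    f.ev (HQ.map m ((i G' φ).comp (k G' φ)) c) = 0 := by
  rw [HQ.map_comp]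
  exact hDTU m _ (f.pull (i G' φ)) (hf G' (i G' φ) hFG (K_le G' φ) fun z => rfl)
    (HQ.map m (k G' φ) c) (hUDM m _ _ (k G' φ) c hc)

end LDA

theorem t_LDA (hDTU : S_DTU) (hUDM : S_UDM) : S_LDA := by
  constructor
  · intro n G _ A E hE hA G' hG' N hN φ hφ x c hc
    haveI : NeZero N := ⟨by omega⟩
    obtain ⟨e, rfl⟩ := KNegOne.exists_of x
    have hK := LDA.K_fc G' φ hN hφ
    have h1 := hE (LDA.K G' φ) hK.1 (Cyc N) (Cen (φ (gen N))) (G'.subtype.comp φ)
      (G'.subtype.comp (Cen (φ (gen N))).subtype)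
      (fun z c => (commute_cyc φ z c).map G'.subtype) (G'.subtype.comp φ).rangeRestrict
      ((LDA.i G' φ).comp (LDA.k G' φ)) (fun _ => rfl) (fun _ => rfl) e c
    refine Eq.trans h1 (LDA.zero G' φ hDTU hUDM hG' _ (hA _ _ _ hK ?_) c hc)
    rw [← Matrix.map_mul, e.idem]
  · intro m G _ B D hD hB G' hG' N hN φ hφ r X c hc
    haveI : NeZero N := ⟨by omega⟩
    have hK := LDA.K_fc G' φ hN hφ
    have h1 := hD (LDA.K G' φ) hK.1 (Cyc N) (Cen (φ (gen N))) (G'.subtype.comp φ)
      (G'.subtype.comp (Cen (φ (gen N))).subtype)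
      (fun z c => (commute_cyc φ z c).map G'.subtype) (G'.subtype.comp φ).rangeRestrict
      ((LDA.i G' φ).comp (LDA.k G' φ)) (fun _ => rfl) (fun _ => rfl) r X c
    exact Eq.trans h1 (LDA.zero G' φ hDTU hUDM hG' _ (hB _ _ _ hK) c hc)

end Pool.Agent.FJL
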