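import Pool.Agent.FJL.St1

/-!
# FJL_LMN: the functional on the source with symbols attached to a functional on the literal source
(adaptation of `exists_V`, `exists_A` in FJA/Asm.lean; helper64)
-/

set_option autoImplicit false
set_option linter.unusedSectionVars false

open Matrix Pool.Agent.WhK Pool.Agent.Lib25 CategoryTheory Pool.Agent.FJA

noncomputable section

namespace Pool.Agent.FJL

namespace LMN

variable {n : ℕ} {G : Type} [Group G]

theorem E_congr (E : FamA n G) {C P : Type} [Group C] [Group P] (φ : C →* G) (j : P →* G)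
    (H : ∀ z c, Commute (j z) (φ c)) (φ' : C →* G) (H' : ∀ z c, Commute (j z) (φ' c))
    (hφ : φ' = φ) (κ : KNegOne (MonoidAlgebra ℤ C)) :
    E C P φ' j H' κ = E C P φ j H κ := by
  subst hφ
  rfl

theorem exists_V (E : FamA n G) (κ : ∀ N : ℕ, ℕ → KNegOne (MonoidAlgebra ℤ (Cyc N))) :
    ∃ V : ∀ (_ : ℕ) (h : G), HQ (n + 1) (Cen h) →ₗ[ℚ] ℚ,
    (∀ p h, ¬ Adm p h → V p h = 0) ∧
    ∀ p h, Adm p h → ∀ (N : ℕ) (φ : Cyc N →* G)
      (H : ∀ (z : Cen h) c, Commute ((Cen h).subtype z) (φ c)), N = orderOf h → φ (gen N) = h →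
      V p h = E (Cyc N) (Cen h) φ (Cen h).subtype H (κ N p) := by
  classical
  have key : ∀ (p : ℕ) (h : G), ∃ v : HQ (n + 1) (Cen h) →ₗ[ℚ] ℚ,
      (¬ Adm p h → v = 0) ∧ (Adm p h → ∀ (N : ℕ) (φ : Cyc N →* G)
      (H : ∀ (z : Cen h) c, Commute ((Cen h).subtype z) (φ c)), N = orderOf h → φ (gen N) = h →
      v = E (Cyc N) (Cen h) φ (Cen h).subtype H (κ N p)) := by
    intro p h
    by_cases hv : Adm p h
    swap
    · exact ⟨0, fun _ => rfl, fun h => absurd h hv⟩
    · have hpos : 0 < orderOf h := orderOf_pos_iff.2 hv.2.1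
      have : NeZero (orderOf h) := ⟨hpos.ne'⟩
      obtain ⟨φ0, h0⟩ := exists_cyc (N := orderOf h) h (pow_orderOf_eq_one h)
      refine ⟨E (Cyc (orderOf h)) (Cen h) φ0 (Cen h).subtype (fun z c => commute_cyc' h0 z c)
        (κ (orderOf h) p), fun h => absurd hv h, ?_⟩
      rintro _ N φ H rfl hφ
      exact E_congr E φ (Cen h).subtype H φ0 _ (cyc_ext (h0.trans hφ.symm)) _
  choose V hV using key
  exact ⟨V, fun p h => (hV p h).1, fun p h hv N φ H hN hφ => (hV p h).2 hv N φ H hN hφ⟩

theorem inj {N : ℕ} [NeZero N] (φ : Cyc N →* G) (hN : orderOf (φ (gen N)) = N) :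
    Function.Injective φ := by
  intro a b hab
  have h1 : φ (a * b⁻¹) = 1 := by rw [map_mul, map_inv, hab, mul_inv_cancel]
  have h2 := cyc_eq_pow (a * b⁻¹)
  rw [h2, map_pow] at h1
  have h3 := orderOf_dvd_of_pow_eq_one h1
  rw [hN] at h3
  have h4 := Nat.eq_zero_of_dvd_of_lt h3 (ZMod.val_lt _)
  rw [h4, pow_zero] at h2
  exact mul_inv_eq_one.1 h2

/-- the additive functional `x ↦ f x c` -/
def at_ {C P : Type} [Group C] [Group P]
    (f : KNegOne (MonoidAlgebra ℤ C) →+ (HQ (n + 1) P →ₗ[ℚ] ℚ)) (c : HQ (n + 1) P) :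
    KNegOne (MonoidAlgebra ℤ C) →+ ℚ where
  toFun x := f x c
  map_zero' := by rw [map_zero]; rfl
  map_add' x y := by rw [map_add]; rfl

end LMN

open LMN in
theorem t_LMN : S_LMN := by
  intro β hIV n G _ E hE hDet
  classical
  obtain ⟨V, hV0, hV⟩ := exists_V E (kap β)
  let A0 : (Sym n G →₀ ℚ) →ₗ[ℚ] ℚ :=
    Finsupp.linearCombination ℚ (fun s => V s.p s.h s.c)
  have hA0 : ∀ p h c, A0 (sg p h c) = V p h c := by
    intro p h c
    unfold sg
    exact (Finsupp.linearCombination_single ℚ _ _).trans (one_smul _ _)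
  have hrel : ∀ x, Rel n G x → A0 x = 0 := by
    intro x hx
    cases hx with
    | invalid p h c hv => rw [hA0, hV0 p h hv]; rfl
    | add p h c c' => rw [map_sub, map_sub, hA0, hA0, hA0, map_add]; abel
    | smul p h q c => rw [map_sub, map_smul, hA0, hA0, map_smul, sub_self]
    | conj p h x c =>
      rw [map_sub, hA0, hA0, sub_eq_zero]
      by_cases hv : Adm p h
      swap
      · rw [hV0 p h hv, hV0 p _ (fun H => hv ((adm_iff_conj x).1 H))]
        rfl
      · have hpos : 0 < orderOf h := orderOf_pos_iff.2 hv.2.1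
        have : NeZero (orderOf h) := ⟨hpos.ne'⟩
        obtain ⟨φ, hφ⟩ := exists_cyc (N := orderOf h) h (pow_orderOf_eq_one h)
        have hφ' : ((MulAut.conj x).toMonoidHom.comp φ) (gen (orderOf h)) = x * h * x⁻¹ := by
          change x * φ (gen (orderOf h)) * x⁻¹ = _
          rw [hφ]
        rw [hV p h hv (orderOf h) φ (fun z c => commute_cyc' hφ z c) rfl hφ,
          hV p (x * h * x⁻¹) (adm_conj x hv) (orderOf h) ((MulAut.conj x).toMonoidHom.comp φ)
            (fun z c => commute_cyc' hφ' z c) (orderOf_conj x h).symm hφ']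
        have H1 : ∀ (z : Cen h) c, Commute (((Cen (x * h * x⁻¹)).subtype.comp
            (cHom x (cHom_conj x h))) z) (((MulAut.conj x).toMonoidHom.comp φ) c) := by
          intro z c
          exact commute_cyc' hφ' _ c
        rw [← hE.comp _ _ _ ((MulAut.conj x).toMonoidHom.comp φ)
          (Cen (x * h * x⁻¹)).subtype (fun z c => commute_cyc' hφ' z c)
          (cHom x (cHom_conj x h)) ((Cen (x * h * x⁻¹)).subtype.comp
            (cHom x (cHom_conj x h))) H1 (fun z => rfl)]
        exact hE.conj _ _ φ _ (Cen h).subtype _ (fun z c => commute_cyc' hφ z c) H1 x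
          (fun c => rfl) (fun z => rfl) _ c
    | frob p h h' hh j k c hv hz hpw =>
      rw [map_sub, hA0, hA0, sub_eq_zero]
      have hpos : 0 < orderOf h := orderOf_pos_iff.2 hv.2.1
      have : NeZero (orderOf h) := ⟨hpos.ne'⟩
      obtain ⟨φ, hφ⟩ := exists_cyc (N := orderOf h) h (pow_orderOf_eq_one h)
      have hzz : Subgroup.zpowers h = Subgroup.zpowers h' := by
        apply le_antisymm
        · rwa [Subgroup.zpowers_le]
        · rwa [Subgroup.zpowers_le]
      obtain ⟨u, hu⟩ := exists_unit_of_zpowers (n := orderOf h) rfl hzz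
      have hrel : uRel (orderOf h) p u 1 := by
        refine ⟨k, j, ?_⟩
        rw [hu, ← pow_mul, pow_eq_pow_iff_modEq, ← ZMod.natCast_eq_natCast_iff] at hpw
        push_cast at hpw
        rw [ZMod.natCast_zmod_val] at hpw
        rw [Units.val_one, one_mul]
        exact hpw.symm
      have hord' : orderOf h' = orderOf h := by
        rw [← Nat.card_zpowers, ← hzz, Nat.card_zpowers]
      have hv' : Adm p h' := ⟨hv.1, by rw [← orderOf_pos_iff, hord']; exact hpos,
        by rw [hord']; exact hv.2.2⟩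
      have hφ' : (φ.comp (pw (orderOf h) u)) (gen (orderOf h)) = h' := by
        rw [pw_gen, hφ, hu]
      rw [hV p h hv (orderOf h) φ (fun z c => commute_cyc' hφ z c) rfl hφ,
        hV p h' hv' (orderOf h) (φ.comp (pw (orderOf h) u))
          (fun z c => commute_cyc' hφ' z c) hord'.symm hφ']
      have H1 : ∀ (z : Cen h) c, Commute ((Cen h).subtype z)
          ((φ.comp (pw (orderOf h) u)) c) := by
        intro z c
        exact commute_cyc' hφ z _
      rw [← hE.comp _ _ _ _ _ _ (cHom 1 (cHom_pow h hh)) (Cen h).subtype H1 (fun z => by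
        change (z : G) = 1 * (z : G) * 1⁻¹
        rw [one_mul, inv_one, mul_one])]
      rw [hE.map _ _ _ φ (Cen h).subtype (fun z c => commute_cyc' hφ z c)
        (pw (orderOf h) u) _ H1 rfl]
      exact (hIV (orderOf h) (at_ (E (Cyc (orderOf h)) (Cen h) φ (Cen h).subtype
        (fun z c => commute_cyc' hφ z c)) c)).1 p hv.1 hv.2.2 u hrel
    | sum h c hfin =>
      have hpos : 0 < orderOf h := orderOf_pos_iff.2 hfin
      have : NeZero (orderOf h) := ⟨hpos.ne'⟩
      obtain ⟨φ, hφ⟩ := exists_cyc (N := orderOf h) h (pow_orderOf_eq_one h)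
      obtain ⟨l, hl⟩ : ∃ l : KNegOne (MonoidAlgebra ℤ (Cyc (orderOf h))) →+ ℚ, ∀ x, l x =
        E (Cyc (orderOf h)) (Cen h) φ (Cen h).subtype (fun z c => commute_cyc' hφ z c) x c :=
        ⟨at_ (E (Cyc (orderOf h)) (Cen h) φ (Cen h).subtype
          (fun z c => commute_cyc' hφ z c)) c, fun _ => rfl⟩
      have h3 : ∀ p ∈ (orderOf h).primeFactors, ∀ u : (ZMod (orderOf h))ˣ,
          V p (h ^ (u : ZMod (orderOf h)).val) (HQ.map (n + 1) (cHom 1 (cHom_pow h
            (Subgroup.pow_mem _ (Subgroup.mem_zpowers h) (u : ZMod (orderOf h)).val))) c) =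
            l (Tw (orderOf h) u (kap β (orderOf h) p)) := by
        intro p hp u
        have hφ' : (φ.comp (pw (orderOf h) u)) (gen (orderOf h)) =
            h ^ (u : ZMod (orderOf h)).val := by
          rw [pw_gen, hφ]
        have hord' : orderOf (h ^ (u : ZMod (orderOf h)).val) = orderOf h := orderOf_pow_val rfl u
        have hv' : Adm p (h ^ (u : ZMod (orderOf h)).val) :=
          ⟨Nat.prime_of_mem_primeFactors hp, by rw [← orderOf_pos_iff, hord']; exact hpos,
          by rw [hord']; exact Nat.dvd_of_mem_primeFactors hp⟩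
        have H1 : ∀ (z : Cen h) c, Commute ((Cen h).subtype z)
            ((φ.comp (pw (orderOf h) u)) c) := by
          intro z c
          exact commute_cyc' hφ z _
        rw [hV p _ hv' (orderOf h) (φ.comp (pw (orderOf h) u))
            (fun z c => commute_cyc' hφ' z c) hord'.symm hφ',
          ← hE.comp _ _ _ (φ.comp (pw (orderOf h) u))
            (Cen (h ^ (u : ZMod (orderOf h)).val)).subtype (fun z c => commute_cyc' hφ' z c)
            (cHom 1 _) (Cen h).subtype H1 (fun z => by
            change (z : G) = 1 * (z : G) * 1⁻¹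
            rw [one_mul, inv_one, mul_one]),
          hE.map _ _ _ φ (Cen h).subtype (fun z c => commute_cyc' hφ z c)
            (pw (orderOf h) u) _ H1 rfl, hl]
        rfl
      have h4 : A0 (∑ p ∈ (orderOf h).primeFactors,
          ∑ a ∈ (Finset.range (orderOf h)).filter (fun a => a.Coprime (orderOf h)),
          sg p (h ^ a) (HQ.map (n + 1) (cHom 1 (cHom_pow h (Subgroup.pow_mem _
            (Subgroup.mem_zpowers h) a))) c)) =
          ∑ q ∈ (orderOf h).primeFactors, ∑ u : (ZMod (orderOf h))ˣ,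
              l (Tw (orderOf h) u (kap β (orderOf h) q)) := by
        rw [map_sum]
        apply Finset.sum_congr rfl
        intro p hp
        rw [map_sum]
        refine Eq.symm (Finset.sum_bij (fun (u : (ZMod (orderOf h))ˣ) _ =>
          (u : ZMod (orderOf h)).val) ?_ ?_ ?_ ?_)
        · intro u _
          rw [Finset.mem_filter, Finset.mem_range]
          exact ⟨ZMod.val_lt _, ZMod.val_coe_unit_coprime u⟩
        · intro u _ v _ huv
          exact Units.ext (ZMod.val_injective _ huv)
        · intro a ha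
          rw [Finset.mem_filter, Finset.mem_range] at ha
          refine ⟨ZMod.unitOfCoprime a ha.2, Finset.mem_univ _, ?_⟩
          rw [ZMod.coe_unitOfCoprime, ZMod.val_natCast, Nat.mod_eq_of_lt ha.1]
        · intro u _
          rw [hA0, h3 p hp u]
      rw [h4]
      exact (hIV (orderOf h) l).2
  have hle : Submodule.span ℚ {x | Rel n G x} ≤ LinearMap.ker A0 := by
    rw [Submodule.span_le]
    intro x hx
    exact hrel x hx
  let A : Src n G →ₗ[ℚ] ℚ :=
    (Submodule.span ℚ {x | Rel n G x}).liftQ A0 hle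
  have hA : ∀ p h c, A (sym p h c) = V p h c := fun p h c => by
    have h1 : A (sym p h c) = A0 (sg p h c) := rfl
    rw [h1, hA0]
  have hmain : ∀ (N p : ℕ) (φ : Cyc N →* G) (c : HQ (n + 1) (Cen (φ (gen N)))), 0 < N →
      p.Prime → p ∣ N → Function.Injective φ →
      A (sym p (φ (gen N)) c) =
        E (Cyc N) (Cen (φ (gen N))) φ (Cen (φ (gen N))).subtype (commute_cyc φ) (kap β N p) c := by
    intro N p φ c hN hp hpN hφ
    have : NeZero N := ⟨hN.ne'⟩
    have hord := orderOf_cyc hN φ hφ
    rw [hA, hV p (φ (gen N)) ⟨hp, by rw [← orderOf_pos_iff, hord]; exact hN,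
      by rw [hord]; exact hpN⟩ N φ (commute_cyc φ) hord.symm rfl]
  refine ⟨A, hmain, ?_⟩
  have hker : UN n G ≤ LinearMap.ker A := by
    unfold UN
    rw [Submodule.span_le]
    rintro x ⟨p, h, c, hfin, hne, hund, rfl⟩
    change A (sym p h c) = 0
    by_cases hv : Adm p h
    swap
    · rw [hA, hV0 p h hv]
      rfl
    · have hpos : 0 < orderOf h := orderOf_pos_iff.2 hfin
      have : NeZero (orderOf h) := ⟨hpos.ne'⟩
      obtain ⟨φ, hφ⟩ := exists_cyc (N := orderOf h) h (pow_orderOf_eq_one h)
      have h1 : 1 < orderOf h := by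
        have h2 : orderOf h ≠ 1 := fun h3 => hne (orderOf_eq_one_iff.1 h3)
        omega
      have key : ∀ (N : ℕ) [NeZero N] (ψ : Cyc N →* G), ψ (gen N) = h → orderOf h = N → 1 < N →
          A (sym p h c) = 0 := by
        intro N _ ψ e hN hN1
        subst e
        rw [hmain N p ψ c (by omega) hv.1 (by rw [← hN]; exact hv.2.2) (inj ψ hN)]
        exact hDet N hN1 ψ (inj ψ hN) _ c hund
      exact key (orderOf h) φ hφ rfl h1
  exact fun x hx => hker hx

end Pool.Agent.FJL
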