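import Pool.Agent.FJL.St2

/-!
# FJL_QEX: existence of the product
-/

set_option autoImplicit false

open Matrix Pool.Agent.WhK Pool.Agent.Lib25 CategoryTheory Pool.Agent.FJA

noncomputable section

namespace Pool.Agent.FJL

theorem QEX_comm {C P G : Type} [Group C] [Group P] [Group G] (φ : C →* G) (j : P →* G)
    (H : ∀ z c, Commute (j z) (φ c)) (r : ℕ) (X : GLn (MonoidAlgebra ℤ C) r) (z : P) :
    glm ((cst (MonoidAlgebra ℤ G)).comp (gr φ)) r X * (scG G r).comp j z =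
      (scG G r).comp j z * glm ((cst (MonoidAlgebra ℤ G)).comp (gr φ)) r X := by
  apply Units.ext
  change (X.val.map ((cst (MonoidAlgebra ℤ G)).comp (gr φ))) *
      (Matrix.diagonal fun _ => elt (j z)) =
    (Matrix.diagonal fun _ => elt (j z)) * (X.val.map ((cst (MonoidAlgebra ℤ G)).comp (gr φ)))
  refine Matrix.ext fun a b => ?_
  rw [Matrix.mul_diagonal, Matrix.diagonal_mul]
  exact ((comm_of H z (X.val a b)).map (cst (MonoidAlgebra ℤ G))).eq.symm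

theorem t_QEX : S_QEX := by
  intro C P G _ _ _ φ j H m r X
  obtain ⟨X1, h1⟩ := FJB.WHX.exists_isCr m ((scG G r).comp j)
    (glm ((cst (MonoidAlgebra ℤ G)).comp (gr φ)) r X) (QEX_comm φ j H r X)
  obtain ⟨X2, h2⟩ := FJB.WHX.exists_isCr (m + 1)
    (MonoidHom.id (GLn (LaurentPolynomial (MonoidAlgebra ℤ G)) r))
    (FJB.WHX.tI (MonoidAlgebra ℤ G) r) (fun z => FJB.WHX.tI_comm r _)
  refine ⟨KB.mk (m + 1) _ r ∘ₗ X2 ∘ₗ X1, ?_⟩
  intro z
  obtain ⟨z1, h3, h4⟩ := h1 z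
  obtain ⟨z', h5, h6⟩ := h2 z1
  refine ⟨z', ?_, ?_⟩
  · rw [h5, h3]
    exact congrArg (insL (m + 1) (FJB.WHX.tI (MonoidAlgebra ℤ G) r)) (IC.map_id (m + 1) _)
  · rw [LinearMap.comp_apply, LinearMap.comp_apply, h4, h6]

end Pool.Agent.FJL
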