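import Pool.Agent.FJL.St4

/-!
# SOL: the solution for a group satisfying the detection conditions
-/

set_option autoImplicit false
set_option linter.unusedSectionVars false

open Matrix Pool.Agent.WhK Pool.Agent.Lib25 CategoryTheory Pool.Agent.FJA

noncomputable section

namespace Pool.Agent.FJL

theorem t_SOL (hLMN : S_LMN) (hFVN : S_FVN) (hLMB : S_LMB) (hFVB : S_FVB) : S_SOL := by
  intro β hIV hGN
  have key : ∀ {n : ℕ} {G : Type} [Group G] {E : FamA n G} (_ : IsFA E) {La : Src n G →ₗ[ℚ] ℚ}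
      (_ : ∀ (N p : ℕ) (φ : Cyc N →* G) (c : HQ (n + 1) (Cen (φ (gen N)))), 0 < N → p.Prime →
        p ∣ N → Function.Injective φ →
        La (sym p (φ (gen N)) c) =
          E (Cyc N) (Cen (φ (gen N))) φ (Cen (φ (gen N))).subtype (commute_cyc φ) (kap β N p) c)
      {lam : HQ (n + 1) (G × Multiplicative ℤ) →ₗ[ℚ] ℚ}
      {Φ : KB n (MonoidAlgebra ℤ G) →ₗ[ℚ] ℚ} (_ : ∀ a, Φ (tau n G a) = lam a)
      (_ : ∀ x, Φ (β.A G n x) = La x), SolN lam E Φ := by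
    intro n G _ E hE La hLa lam Φ h1 h2
    refine ⟨h1, ?_⟩
    have h3 := hFVN β hGN n G (famA Φ) E (isFA_famA Φ) hE (fun N p φ c hN hp hpN hφ => by
      rw [famA_apply, ← β.A_sym n N p φ c hN hp hpN hφ, h2, hLa N p φ c hN hp hpN hφ])
    intro C P _ _ _ φ j H hφ x c
    exact h3 C P φ j H hφ x c
  refine ⟨?_, ?_⟩
  · intro G _ lam E hE hdet hlam
    obtain ⟨La, hLa, hLa0⟩ := hLMN β hIV 0 G E hE hdet
    obtain ⟨Φ, h1, h2⟩ := β.ext0 G lam La hlam hLa0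
    exact ⟨Φ, key hE hLa h1 h2⟩
  · intro G _ m hm lam E D hE hdA hD hdB hlam
    obtain ⟨La, hLa, hLa0⟩ := hLMN β hIV (m + 1) G E hE hdA
    obtain ⟨Lb, hLb, hLb0⟩ := hLMB m G D hD hdB
    obtain ⟨Φ, h1, h2, h3⟩ := β.extS G m hm lam La Lb hlam hLa0 hLb0
    exact ⟨Φ, key hE hLa h1 h2, hFVB m G D hD (β.B G m) (β.hB G m) Φ Lb hLb h3⟩

end Pool.Agent.FJL
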