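import Pool.Agent.FJL.St3

/-!
# FJL_UK0: `KB n R` as a quotient of `HGL (n + 1) R[t,t⁻¹]`
-/

set_option autoImplicit false
set_option linter.unusedSectionVars false

open Matrix Pool.Agent.WhK Pool.Agent.Lib25 CategoryTheory Pool.Agent.FJA

noncomputable section

namespace Pool.Agent.FJL

namespace UK0

/-- The generators which come from a ring homomorphism. -/
def GI (m : ℕ) {R S : Type} [Ring R] [Ring S] (f : R →+* S) : Set (HGL m S) :=
  {x | ∃ (r : ℕ) (c : HQ m (GLn R r)), x = HGL.of m S r (HQ.map m (glm f r) c)}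

/-- The generators of the block relations. -/
def GB (m : ℕ) (R : Type) [Ring R] : Set (HGL m R) :=
  {x | ∃ (a b : ℕ) (c : HQ m (GLn R a × GLn R b)),
    x = HGL.of m R (a + b) (HQ.map m (bsumHom R a b) c) -
      HGL.of m R a (HQ.map m (MonoidHom.fst _ _) c) -
      HGL.of m R b (HQ.map m (MonoidHom.snd _ _) c)}

theorem blockRel_eq (m : ℕ) (R : Type) [Ring R] :
    blockRel m R = Submodule.span ℚ (GB m R) := rfl

theorem im_eq (m : ℕ) {R S : Type} [Ring R] [Ring S] (f : R →+* S) :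
    KQ.im m f = Submodule.map (blockRel m S).mkQ (Submodule.span ℚ (GI m f)) := by
  rw [Submodule.map_span]
  unfold KQ.im
  congr 1
  ext x
  constructor
  · rintro ⟨r, c, rfl⟩
    exact ⟨_, ⟨r, c, rfl⟩, rfl⟩
  · rintro ⟨_, ⟨r, c, rfl⟩, rfl⟩
    exact ⟨r, c, rfl⟩

theorem RG_eq (n : ℕ) (R : Type) [Ring R] :
    RG n R = GB (n + 1) (LaurentPolynomial R) ∪
      (GI (n + 1) (posIncl R) ∪ GI (n + 1) (negIncl R)) := rfl

end UK0

open UK0 in
theorem t_UK0 : S_UK0 := by
  intro n R _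
  refine ⟨(KQ.im (n + 1) (posIncl R) ⊔ KQ.im (n + 1) (negIncl R)).mkQ ∘ₗ
    (blockRel (n + 1) (LaurentPolynomial R)).mkQ, fun r c => rfl, ?_, fun v => ?_⟩
  · intro y
    obtain ⟨x, rfl⟩ := Submodule.mkQ_surjective _ y
    obtain ⟨v, rfl⟩ := Submodule.mkQ_surjective _ x
    exact ⟨v, rfl⟩
  · rw [LinearMap.comp_apply, Submodule.mkQ_apply, Submodule.Quotient.mk_eq_zero, im_eq, im_eq,
      ← Submodule.map_sup, ← Submodule.mem_comap, Submodule.comap_map_mkQ, blockRel_eq,
      ← Submodule.span_union, ← Submodule.span_union, RG_eq]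

end Pool.Agent.FJL

end
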