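import Pool.Agent.FJL.P_KBM

/-!
# UKB: elements which die in the union die in a finitely generated subgroup
-/

set_option autoImplicit false

open Matrix Pool.Agent.WhK Pool.Agent.Lib25 CategoryTheory Pool.Agent.FJA

noncomputable section

namespace Pool.Agent.FJL

namespace UKB

/-- The map induced by a ring homomorphism in terms of the presentations. -/
theorem km_q {R S : Type} [Ring R] [Ring S] (n : ℕ) (f : R →+* S) {M : KB n R →ₗ[ℚ] KB n S}
    (hM : IsKm n f M) (q : HGL (n + 1) (LaurentPolynomial R) →ₗ[ℚ] KB n R)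
    (q' : HGL (n + 1) (LaurentPolynomial S) →ₗ[ℚ] KB n S)
    (hq : ∀ (r : ℕ) (c : HQ (n + 1) (GLn (LaurentPolynomial R) r)),
      q (HGL.of (n + 1) _ r c) = KB.mk n R r c)
    (hq' : ∀ (r : ℕ) (c : HQ (n + 1) (GLn (LaurentPolynomial S) r)),
      q' (HGL.of (n + 1) _ r c) = KB.mk n S r c) (v : HGL (n + 1) (LaurentPolynomial R)) :
    M (q v) = q' (hglm (n + 1) (mapL f) v) := by
  have h1 : M ∘ₗ q = q' ∘ₗ hglm (n + 1) (mapL f) := by
    apply KBM.hgl_ext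
    intro r c
    rw [LinearMap.comp_apply, LinearMap.comp_apply, hq, hM, hglm_of, hq']
  exact LinearMap.congr_fun h1 v

end UKB

theorem t_UKB (hUK0 : S_UK0) (hUK1 : S_UK1) (hUK2 : S_UK2) : S_UKB := by
  intro G _ n G' hG' M hM x hx
  obtain ⟨q', hq1', hq2', -⟩ := hUK0 n (MonoidAlgebra ℤ G')
  obtain ⟨q, hq1, -, hq3⟩ := hUK0 n (MonoidAlgebra ℤ G)
  obtain ⟨v, rfl⟩ := hq2' x
  rw [UKB.km_q n _ hM q' q hq1' hq1, hq3] at hx
  obtain ⟨K1, w1, hw1, hw2⟩ := hUK1 G n G' hG' _ hx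
  obtain ⟨K, h, hK, hK2⟩ := hUK2 G n K1.1 K1.2.2
    (hglm (n + 1) (mapL (gr (Subgroup.inclusion K1.2.1))) v - w1) (by
      rw [map_sub, hw2, KBM.hglm_mapL_comp, ← gr_comp, Subgroup.subtype_comp_inclusion, sub_self])
  refine ⟨K, K1.2.1.trans h, hK, fun M' hM' => ?_⟩
  obtain ⟨qK, hqK1, -, hqK3⟩ := hUK0 n (MonoidAlgebra ℤ K)
  rw [UKB.km_q n _ hM' q' qK hq1' hqK1, hqK3]
  rw [map_sub, KBM.hglm_mapL_comp, ← gr_comp, sub_eq_zero] at hK2
  have h2 : (Subgroup.inclusion h).comp (Subgroup.inclusion K1.2.1) =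
      Subgroup.inclusion (K1.2.1.trans h) := rfl
  rw [h2] at hK2
  rw [hK2]
  exact KBM.hglm_span n _ hw1

end Pool.Agent.FJL
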