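import Pool.Agent.FJL.St3

/-!
# UNA: compactness
-/

set_option autoImplicit false
set_option linter.unusedSectionVars false

open Matrix Pool.Agent.WhK Pool.Agent.Lib25 CategoryTheory Pool.Agent.FJA

noncomputable section

namespace Pool.Agent.FJL

namespace UNA

/-- The finitely generated subgroups are directed: upper bounds of finite families. -/
theorem exists_ub {G J : Type} [Group G] (s : Finset J) (K : J → Subgroup G)
    (hK : ∀ j ∈ s, (K j).FG) : ∃ L : Subgroup G, L.FG ∧ ∀ j ∈ s, K j ≤ L := by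
  classical
  induction s using Finset.induction_on with
  | empty => exact ⟨⊥, ⟨∅, by simp⟩, fun j hj => absurd hj (Finset.notMem_empty j)⟩
  | insert a s ha ih =>
    obtain ⟨L, h1, h2⟩ := ih fun j hj => hK j (Finset.mem_insert_of_mem hj)
    refine ⟨K a ⊔ L, (hK a (Finset.mem_insert_self a s)).sup h1, fun j hj => ?_⟩
    rcases Finset.mem_insert.1 hj with rfl | hj
    · exact le_sup_left
    · exact (h2 j hj).trans le_sup_right

theorem gr_incl {G : Type} [Group G] {K L : Subgroup G} (h : K ≤ L) :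
    (gr L.subtype).comp (gr (Subgroup.inclusion h)) = gr K.subtype := by
  rw [← gr_comp]
  rfl

theorem gr_incl2 {G : Type} [Group G] {K L M : Subgroup G} (h : K ≤ L) (h' : L ≤ M) :
    (gr (Subgroup.inclusion h')).comp (gr (Subgroup.inclusion h)) =
      gr (Subgroup.inclusion (h.trans h')) := by
  rw [← gr_comp]
  rfl

end UNA

open UNA in
theorem t_UNA (hKBM : S_KBM) (hUKB : S_UKB) : S_UNA := by
  classical
  intro G _ n Con ConG hup hfrom hsol
  suffices hs : ∃ F : KB n (MonoidAlgebra ℤ G) →ₗ[ℚ] ℚ, ∀ y : {y // y ∈ ConG}, F y.1.1 = y.1.2 by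
    obtain ⟨F, hF⟩ := hs
    exact ⟨F, fun y hy => hF ⟨y, hy⟩⟩
  refine exists_fun (J := {y // y ∈ ConG}) (fun y => y.1.1) (fun y => y.1.2) ?_
  intro q hq
  choose K hKFG v hv hM using fun y : {y // y ∈ ConG} => hfrom y.1 y.2
  obtain ⟨G', hG', hle⟩ := exists_ub q.support K (fun y _ => hKFG y)
  -- the images of the elements over `G'`
  have h1 : ∀ y : {y // y ∈ ConG}, ∃ w : KB n (MonoidAlgebra ℤ G'), y ∈ q.support →
      (w, y.1.2) ∈ Con G' ∧ ∀ M : KB n (MonoidAlgebra ℤ G') →ₗ[ℚ] KB n (MonoidAlgebra ℤ G),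
        IsKm n (gr G'.subtype) M → M w = y.1.1 := by
    intro y
    by_cases hy : y ∈ q.support
    · obtain ⟨⟨M1, hM1⟩, -, -⟩ := hKBM n _ _ (gr (Subgroup.inclusion (hle y hy)))
      refine ⟨M1 (v y), fun _ => ⟨hup (K y) G' (hle y hy) M1 hM1 _ (hv y), fun M hM' => ?_⟩⟩
      have h2 := (hKBM n _ _ (gr (Subgroup.inclusion (hle y hy)))).2.2 _ (gr G'.subtype) M1 M hM1 hM'
      rw [gr_incl] at h2
      exact hM y (M ∘ₗ M1) h2
    · exact ⟨0, fun h => absurd h hy⟩
  choose w hw using h1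
  obtain ⟨⟨M, hM'⟩, -, -⟩ := hKBM n _ _ (gr G'.subtype)
  have hx : M (q.sum fun y r => r • w y) = 0 := by
    rw [← hq]
    unfold Finsupp.sum
    rw [map_sum]
    refine Finset.sum_congr rfl fun y hy => ?_
    rw [map_smul, (hw y hy).2 M hM']
  obtain ⟨L, hL, hLFG, hdie⟩ := hUKB G n G' hG' M hM' _ hx
  obtain ⟨⟨M2, hM2⟩, -, -⟩ := hKBM n _ _ (gr (Subgroup.inclusion hL))
  obtain ⟨Φ, hΦ⟩ := hsol L hLFG
  have h3 : Φ (M2 (q.sum fun y r => r • w y)) = 0 := by rw [hdie M2 hM2, map_zero]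
  rw [← h3]
  unfold Finsupp.sum
  rw [map_sum, map_sum]
  refine Finset.sum_congr rfl fun y hy => ?_
  rw [map_smul, map_smul, smul_eq_mul]
  have h4 := hΦ _ (hup G' L hL M2 hM2 _ (hw y hy).1)
  rw [h4]

end Pool.Agent.FJL
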