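import Pool.Agent.FJL.ODefs

/-!
# The literal source of the assembly map for `t ≤ 1`, in dual form

A functional on `K_{-1}(R)`: a function on the idempotent matrices over `R[t,t⁻¹]`.  A functional on `K_1(R)`: a
function on the groups `GL_r(R)`.
-/

set_option autoImplicit false

open CategoryTheory

noncomputable section

namespace Pool.Agent.FJL.Dual

open Pool.Agent.FJL.OD

/-- The centraliser of the subgroup `H`. -/
abbrev CG {G : Type} [Group G] (H : Subgroup G) : Subgroup G := Subgroup.centralizer (H : Set G)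

/-- The ring homomorphism `ℤ[C][t,t⁻¹] → ℤ[G][t,t⁻¹]` induced by a homomorphism of groups. -/
def lm {C G : Type} [Group C] [Group G] (φ : C →* G) : LG C →+* LG G :=
  AddMonoidAlgebra.mapRingHom ℤ (MonoidAlgebra.mapDomainRingHom ℤ φ)

/-- The block sum of two square matrices. -/
def bs {R : Type} [Ring R] {r s : ℕ} (e : Matrix (Fin r) (Fin r) R) (f : Matrix (Fin s) (Fin s) R) :
    Matrix (Fin (r + s)) (Fin (r + s)) R :=
  (Matrix.fromBlocks e 0 0 f).submatrix finSumFinEquiv.symm finSumFinEquiv.symm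

/-- A homomorphism from `K_{-1}(R)`, the cokernel of `K_0(R[X]) ⊕ K_0(R[X]) → K_0(R[t,t⁻¹])`, `X ↦ t` and
`X ↦ t⁻¹`, to a vector space `W`: a function on the idempotent matrices over `R[t,t⁻¹]` with the same value on
`x y` and `y x`, additive on block sums, and zero on the idempotent matrices over `R[t]` and `R[t⁻¹]`. -/
def IsKm1 {R W : Type} [Ring R] [AddCommGroup W]
    (A : ∀ r : ℕ, Matrix (Fin r) (Fin r) (LaurentPolynomial R) → W) : Prop :=
  (∀ (r s : ℕ) (x : Matrix (Fin r) (Fin s) (LaurentPolynomial R))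
      (y : Matrix (Fin s) (Fin r) (LaurentPolynomial R)), x * y * (x * y) = x * y →
      y * x * (y * x) = y * x → A r (x * y) = A s (y * x)) ∧
  (∀ (r s : ℕ) (e : Matrix (Fin r) (Fin r) (LaurentPolynomial R))
      (f : Matrix (Fin s) (Fin s) (LaurentPolynomial R)), e * e = e → f * f = f →
      A (r + s) (bs e f) = A r e + A s f) ∧
  ∀ j : Polynomial R →+* LaurentPolynomial R, (∀ x, j (Polynomial.C x) = LaurentPolynomial.C x) →
    (j Polynomial.X = LaurentPolynomial.T 1 ∨ j Polynomial.X = LaurentPolynomial.T (-1)) →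
    ∀ (r : ℕ) (e : Matrix (Fin r) (Fin r) (Polynomial R)), e * e = e → A r (e.map j) = 0

/-- A homomorphism from `K_1(R)` to a vector space `W`: homomorphisms `GL_r(R) → W` which are additive on block
sums. -/
def IsK1 {R W : Type} [Ring R] [AddCommGroup W] (B : ∀ r : ℕ, GLr R r → W) : Prop :=
  (∀ (r : ℕ) (X Y : GLr R r), B r (X * Y) = B r X + B r Y) ∧
  ∀ (a b : ℕ) (X : GLr R a) (Y : GLr R b) (Z : GLr R (a + b)), Blk X Y Z → B (a + b) Z = B a X + B b Y

/-- The homomorphism `φ : H → H'` is the conjugation by `g`, and `u` is the homomorphism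
`z ↦ g⁻¹ z g` between the centralisers. -/
def Cnj {G : Type} [Group G] {H H' : Subgroup G} (g : G) (φ : H →* H') (u : CG H' →* CG H) : Prop :=
  (∀ x, (φ x : G) = g * x * g⁻¹) ∧ ∀ z, (u z : G) = g⁻¹ * z * g

/-- A linear functional on `H_{n+1}(Z_G(?); ℚ) ⊗ K_{-1}(ℤ[?])` over the category of the finite subgroups of
`G` (and the homomorphisms which are conjugations by the elements of `G`): homomorphisms `A H` from
`K_{-1}(ℤ[H])` to `H^{n+1}(Z_G(H); ℚ)`, compatible with the conjugations. -/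
def IsA {n : ℕ} {G : Type} [Group G]
    (A : ∀ (H : Subgroup G) (r : ℕ), Matrix (Fin r) (Fin r) (LG H) → Coh n (CG H)) : Prop :=
  (∀ H : Subgroup G, Finite H → IsKm1 (A H)) ∧
  ∀ (H H' : Subgroup G) (g : G) (φ : H →* H') (u : CG H' →* CG H), Finite H → Finite H' →
    Cnj g φ u → ∀ (r : ℕ) (e : Matrix (Fin r) (Fin r) (LG H)), e * e = e →
      A H' r (e.map (lm φ)) = (A H r e).pull u

/-- The same for `H_m(Z_G(?); ℚ) ⊗ K_1(ℤ[?])`. -/
def IsB {m : ℕ} {G : Type} [Group G]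
    (B : ∀ (H : Subgroup G) (r : ℕ), GLr (MonoidAlgebra ℤ H) r → Coh m (CG H)) : Prop :=
  (∀ H : Subgroup G, Finite H → IsK1 (B H)) ∧
  ∀ (H H' : Subgroup G) (g : G) (φ : H →* H') (u : CG H' →* CG H), Finite H → Finite H' →
    Cnj g φ u → ∀ (r : ℕ) (X : GLr (MonoidAlgebra ℤ H) r),
      B H' r (GLr.map (MonoidAlgebra.mapDomainRingHom ℤ φ) r X) = (B H r X).pull u

/-- The restrictions of the class `f` to the centralisers of `H` in the finitely generated subgroups `G'` of `G`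
containing `H` are detected. -/
def LDet {m : ℕ} {G : Type} [Group G] {H : Subgroup G} (f : Coh m (CG H)) : Prop :=
  ∀ (G' : Subgroup G) (i : ↥(CG H ⊓ G') →* CG H), G'.FG → H ≤ G' → (∀ z, (i z : G) = z) →
    Det (f.pull i)

/-- `H` is finite cyclic and not trivial. -/
def Fc {G : Type} [Group G] (H : Subgroup G) : Prop := Finite H ∧ IsCyclic H ∧ H ≠ ⊥

/-- For every finitely generated subgroup `G'` of `G` and every prime `p` the `p`-parts of the orders of the
torsion elements of `G'` are bounded. -/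
def LPBd (G : Type) [Group G] : Prop := ∀ G' : Subgroup G, G'.FG → PBd G'

/-- The element `x` of `ℤ[G][t,t⁻¹]`, if it is a unit, as a scalar matrix. -/
def sc {R : Type} [Ring R] (r : ℕ) : Rˣ →* GLr R r := Units.map (Matrix.scalar (Fin r)).toMonoidHom

/-- The elements of `G` in `GL_r(ℤ[G][t,t⁻¹])`. -/
def gr (G : Type) [Group G] (r : ℕ) : G →* GLr (LG G) r :=
  (sc r).comp ((Units.map LaurentPolynomial.C.toMonoidHom).comp (MonoidAlgebra.of ℤ G).toHomUnits)

/-- The element `t` of `GL_r(ℤ[G][t,t⁻¹])`. -/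
def tr (G : Type) [Group G] (r : ℕ) : GLr (LG G) r where
  val := Matrix.scalar (Fin r) (LaurentPolynomial.T 1)
  inv := Matrix.scalar (Fin r) (LaurentPolynomial.T (-1))
  val_inv := by
    rw [← map_mul, ← LaurentPolynomial.T_add, add_neg_cancel, LaurentPolynomial.T_zero, map_one]
  inv_val := by
    rw [← map_mul, ← LaurentPolynomial.T_add, neg_add_cancel, LaurentPolynomial.T_zero, map_one]

/-- The part `t = 0` : `F (c × [t]) = f c` for `c` in `H_n(G; ℚ)`. -/
def Ext0 {n : ℕ} {G : Type} [Group G] (f : Coh n G) (F : Coh (n + 1) (GLr (LG G) 1)) : Prop :=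
  ∀ (x : (Fin n → G) →₀ ℚ) (c : H ℚ n G), Cls x c → ∃ c' : H ℚ (n + 1) (GLr (LG G) 1),
    Cls (ins n (tr G 1) (x.mapDomain fun a i => gr G 1 (a i))) c' ∧ F.ev c' = f.ev c

/-- The part `t = -1`: for an idempotent matrix `e` over `ℤ[H][t,t⁻¹]` with image `E` over
`ℤ[G][t,t⁻¹]`, the pull-back of `F` along the homomorphism `z ↦ z E + 1 - E` from `Z_G(H)` is `A H e`. -/
def ExtA {n : ℕ} {G : Type} [Group G]
    (A : ∀ (H : Subgroup G) (r : ℕ), Matrix (Fin r) (Fin r) (LG H) → Coh n (CG H))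
    (F : ∀ r : ℕ, Coh n (GLr (LG G) r)) : Prop :=
  ∀ (H : Subgroup G) (r : ℕ) (e : Matrix (Fin r) (Fin r) (LG H)), Finite H → e * e = e →
    ∃ s : CG H →* GLr (LG G) r,
      (∀ z, (s z).mat = (gr G r z).mat * e.map (lm H.subtype) + (1 - e.map (lm H.subtype))) ∧
      (F r).pull s = A H r e

/-- The part `t = 1`: `F (c × [X] × [t]) = B H X c` for `X` in `GL_r(ℤ[H])` and `c` in
`H_m(Z_G(H); ℚ)`. -/
def ExtB {m : ℕ} {G : Type} [Group G]
    (B : ∀ (H : Subgroup G) (r : ℕ), GLr (MonoidAlgebra ℤ H) r → Coh m (CG H))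
    (F : ∀ r : ℕ, Coh (m + 2) (GLr (LG G) r)) : Prop :=
  ∀ (H : Subgroup G) (r : ℕ) (X : GLr (MonoidAlgebra ℤ H) r) (x : (Fin m → CG H) →₀ ℚ)
    (c : Pool.Agent.FJL.OD.H ℚ m (CG H)), Finite H → Cls x c →
    ∃ c' : Pool.Agent.FJL.OD.H ℚ (m + 2) (GLr (LG G) r),
      Cls (ins (m + 1) (tr G r) (ins m
        (GLr.map (lm H.subtype) r (GLr.map LaurentPolynomial.C r X))
        (x.mapDomain fun a i => gr G r (a i : G)))) c' ∧ (F r).ev c' = (B H r X).ev c

/-- The statement in degree `0`. -/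
def Main0 : Prop :=
  ∀ (G : Type) [Group G] (f : Coh 0 G)
    (A : ∀ (H : Subgroup G) (r : ℕ), Matrix (Fin r) (Fin r) (LG H) → Coh 1 (CG H)), IsA A →
    (∀ (H : Subgroup G) (r : ℕ) (e : Matrix (Fin r) (Fin r) (LG H)), Fc H → e * e = e →
      LDet (A H r e)) →
    ∃ F : ∀ r : ℕ, Coh 1 (GLr (LG G) r), IsKn F ∧ Ext0 f (F 1) ∧ ExtA A F

/-- The statement in degree `m + 1`. -/
def MainS : Prop :=
  ∀ (G : Type) [Group G] (m : ℕ), (m ≤ 1 ∨ LPBd G) → ∀ (f : Coh (m + 1) G)
    (A : ∀ (H : Subgroup G) (r : ℕ), Matrix (Fin r) (Fin r) (LG H) → Coh (m + 2) (CG H))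
    (B : ∀ (H : Subgroup G) (r : ℕ), GLr (MonoidAlgebra ℤ H) r → Coh m (CG H)), IsA A → IsB B →
    (∀ (H : Subgroup G) (r : ℕ) (e : Matrix (Fin r) (Fin r) (LG H)), Fc H → e * e = e →
      LDet (A H r e)) →
    (∀ (H : Subgroup G) (r : ℕ) (X : GLr (MonoidAlgebra ℤ H) r), Fc H → LDet (B H r X)) →
    ∃ F : ∀ r : ℕ, Coh (m + 2) (GLr (LG G) r), IsKn F ∧ Ext0 f (F 1) ∧ ExtA A F ∧ ExtB B F

end Pool.Agent.FJL.Dual
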