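import Pool.Agent.FJL.St3

/-!
# KBM: the map induced by a ring homomorphism
-/

set_option autoImplicit false

open Matrix Pool.Agent.WhK Pool.Agent.Lib25 CategoryTheory Pool.Agent.FJA

noncomputable section

namespace Pool.Agent.FJL

namespace KBM

variable {R S T : Type} [Ring R] [Ring S] [Ring T]

theorem glm_comp (f : R →+* S) (g : S →+* T) (r : ℕ) :
    (glm g r).comp (glm f r) = glm (g.comp f) r := by
  apply MonoidHom.ext
  intro X
  apply Units.ext
  rfl

theorem glm_mapL_comp (f : R →+* S) (g : S →+* T) (r : ℕ) :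
    (glm (mapL g) r).comp (glm (mapL f) r) = glm (mapL (g.comp f)) r := by
  rw [glm_comp]
  congr 1
  apply RingHom.ext
  intro x
  exact mapL_mapL f g x

theorem glm_mapL_posIncl (f : R →+* S) (r : ℕ) :
    (glm (mapL f) r).comp (glm (posIncl R) r) =
      (glm (posIncl S) r).comp (glm (Polynomial.mapRingHom f) r) := by
  rw [glm_comp, glm_comp, mapL_posIncl]

theorem glm_mapL_negIncl (f : R →+* S) (r : ℕ) :
    (glm (mapL f) r).comp (glm (negIncl R) r) =
      (glm (negIncl S) r).comp (glm (Polynomial.mapRingHom f) r) := by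
  rw [glm_comp, glm_comp, mapL_negIncl]

theorem glm_bsumHom (f : R →+* S) (a b : ℕ) :
    (glm f (a + b)).comp (bsumHom R a b) =
      (bsumHom S a b).comp (MonoidHom.prodMap (glm f a) (glm f b)) := by
  apply MonoidHom.ext
  intro z
  exact FJB.WHX.glm_bsum f a b z

/-- The induced map on the sum of the homology groups maps the relations to the relations. -/
theorem hglm_RG (n : ℕ) (f : R →+* S) {x : HGL (n + 1) (LaurentPolynomial R)} (hx : x ∈ RG n R) :
    hglm (n + 1) (mapL f) x ∈ RG n S := by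
  rcases hx with ⟨a, b, c, rfl⟩ | ⟨r, c, rfl⟩ | ⟨r, c, rfl⟩
  · left
    refine ⟨a, b, HQ.map (n + 1) (MonoidHom.prodMap (glm (mapL f) a) (glm (mapL f) b)) c, ?_⟩
    rw [map_sub, map_sub, hglm_of, hglm_of, hglm_of, ← HQ.map_comp, ← HQ.map_comp, ← HQ.map_comp,
      ← HQ.map_comp, ← HQ.map_comp, ← HQ.map_comp, glm_bsumHom]
    rfl
  · right; left
    refine ⟨r, HQ.map (n + 1) (glm (Polynomial.mapRingHom f) r) c, ?_⟩
    rw [hglm_of, ← HQ.map_comp, ← HQ.map_comp, glm_mapL_posIncl]
  · right; right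
    refine ⟨r, HQ.map (n + 1) (glm (Polynomial.mapRingHom f) r) c, ?_⟩
    rw [hglm_of, ← HQ.map_comp, ← HQ.map_comp, glm_mapL_negIncl]

theorem hglm_span (n : ℕ) (f : R →+* S) {x : HGL (n + 1) (LaurentPolynomial R)}
    (hx : x ∈ Submodule.span ℚ (RG n R)) :
    hglm (n + 1) (mapL f) x ∈ Submodule.span ℚ (RG n S) := by
  have h1 : (Submodule.span ℚ (RG n R)).map (hglm (n + 1) (mapL f)) ≤
      Submodule.span ℚ (RG n S) := by
    rw [Submodule.map_span_le]
    intro m hm
    exact Submodule.subset_span (hglm_RG n f hm)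
  exact h1 (Submodule.mem_map_of_mem hx)

/-- Linear maps on the sum of the homology groups are determined by the values on the summands. -/
theorem hgl_ext {V : Type} [AddCommGroup V] [Module ℚ V] {m : ℕ} {ψ ψ' : HGL m R →ₗ[ℚ] V}
    (h : ∀ r (c : HQ m (GLn R r)), ψ (HGL.of m R r c) = ψ' (HGL.of m R r c)) : ψ = ψ' := by
  apply DirectSum.linearMap_ext
  intro r
  apply LinearMap.ext
  intro c
  exact h r c

/-- The induced map on the sum of the homology groups is functorial. -/
theorem hglm_comp (m : ℕ) (f : R →+* S) (g : S →+* T) (x : HGL m R) :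
    hglm m g (hglm m f x) = hglm m (g.comp f) x := by
  have h1 : (hglm m g).comp (hglm m f) = hglm m (g.comp f) := by
    apply hgl_ext
    intro r c
    rw [LinearMap.comp_apply, hglm_of, hglm_of, hglm_of, ← HQ.map_comp, glm_comp]
  exact LinearMap.congr_fun h1 x

theorem hglm_mapL_comp (m : ℕ) (f : R →+* S) (g : S →+* T) (x : HGL m (LaurentPolynomial R)) :
    hglm m (mapL g) (hglm m (mapL f) x) = hglm m (mapL (g.comp f)) x := by
  rw [hglm_comp]
  congr 1
  congr 1
  apply RingHom.ext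
  intro x
  exact mapL_mapL f g x

end KBM

theorem t_KBM (hUK0 : S_UK0) : S_KBM := by
  intro n R S _ _ f
  refine ⟨?_, ?_, ?_⟩
  · obtain ⟨q, hq1, hq2, hq3⟩ := hUK0 n R
    obtain ⟨q', hq1', hq2', hq3'⟩ := hUK0 n S
    have hker : LinearMap.ker q ≤ LinearMap.ker (q' ∘ₗ hglm (n + 1) (mapL f)) := by
      intro v hv
      rw [LinearMap.mem_ker, hq3] at hv
      rw [LinearMap.mem_ker, LinearMap.comp_apply, hq3']
      exact KBM.hglm_span n f hv
    refine ⟨((LinearMap.ker q).liftQ (q' ∘ₗ hglm (n + 1) (mapL f)) hker) ∘ₗ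
      (q.quotKerEquivOfSurjective hq2).symm.toLinearMap, ?_⟩
    intro r c
    have h1 : (q.quotKerEquivOfSurjective hq2).symm (KB.mk n R r c) =
        Submodule.Quotient.mk (HGL.of (n + 1) _ r c) := by
      rw [LinearEquiv.symm_apply_eq]
      exact (hq1 r c).symm
    rw [LinearMap.comp_apply, LinearEquiv.coe_toLinearMap, h1, Submodule.liftQ_apply,
      LinearMap.comp_apply, hglm_of, hq1']
  · intro M M' hM hM'
    obtain ⟨q, hq1, hq2, hq3⟩ := hUK0 n R
    have h1 : M ∘ₗ q = M' ∘ₗ q := by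
      apply KBM.hgl_ext
      intro r c
      rw [LinearMap.comp_apply, LinearMap.comp_apply, hq1, hM, hM']
    apply LinearMap.ext
    intro y
    obtain ⟨v, rfl⟩ := hq2 y
    exact LinearMap.congr_fun h1 v
  · intro T _ g M M' hM hM' r c
    rw [LinearMap.comp_apply, hM, hM', ← HQ.map_comp, KBM.glm_mapL_comp]

end Pool.Agent.FJL
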