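import Pool.Agent.FJL.Defs

/-!
# FJL, block 3 (change of rings, directed unions): statements with proofs

File names: `Pool/Agent/FJL/P_X.lean`, theorem `t_X : S_X` (hypotheses as in the doc strings), namespace
`Pool.Agent.FJL`; imports `Pool.Agent.FJL.St3`.
-/

set_option autoImplicit false
set_option linter.unusedSectionVars false

open Matrix Pool.Agent.WhK Pool.Agent.Lib25 CategoryTheory Pool.Agent.FJA

noncomputable section

namespace Pool.Agent.FJL

/-! ## Change of rings -/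

section Hglm

variable {R S T : Type} [Ring R] [Ring S] [Ring T]

/-- The map induced by a ring homomorphism on the sum of the homology groups of the general linear groups. -/
def hglm (m : ℕ) (f : R →+* S) : HGL m R →ₗ[ℚ] HGL m S :=
  DirectSum.toModule ℚ ℕ _ fun r => HGL.of m S r ∘ₗ HQ.map m (glm f r)

theorem hglm_of (m : ℕ) (f : R →+* S) (r : ℕ) (c : HQ m (GLn R r)) :
    hglm m f (HGL.of m R r c) = HGL.of m S r (HQ.map m (glm f r) c) := by
  have h1 : hglm m f (DirectSum.lof ℚ ℕ (fun r => HQ m (GLn R r)) r c) =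
      (HGL.of m S r ∘ₗ HQ.map m (glm f r)) c := by
    unfold hglm
    rw [DirectSum.toModule_lof]
  exact h1

/-- The generators of the relations of `KB n R`: block sums, and the classes of `R[t]` and `R[t⁻¹]`. -/
def RG (n : ℕ) (R : Type) [Ring R] : Set (HGL (n + 1) (LaurentPolynomial R)) :=
  {x | (∃ (a b : ℕ) (c : HQ (n + 1) (GLn (LaurentPolynomial R) a × GLn (LaurentPolynomial R) b)),
      x = HGL.of (n + 1) _ (a + b) (HQ.map (n + 1) (bsumHom (LaurentPolynomial R) a b) c) -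
        HGL.of (n + 1) _ a (HQ.map (n + 1) (MonoidHom.fst _ _) c) -
        HGL.of (n + 1) _ b (HQ.map (n + 1) (MonoidHom.snd _ _) c)) ∨
    (∃ (r : ℕ) (c : HQ (n + 1) (GLn (Polynomial R) r)),
      x = HGL.of (n + 1) _ r (HQ.map (n + 1) (glm (posIncl R) r) c)) ∨
    ∃ (r : ℕ) (c : HQ (n + 1) (GLn (Polynomial R) r)),
      x = HGL.of (n + 1) _ r (HQ.map (n + 1) (glm (negIncl R) r) c)}

end Hglm

/-- FJL_UK0 (90 lines; no hypotheses).  `KB n R` is the quotient of `HGL (n + 1) R[t,t⁻¹]` by the span of `RG`.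

PROOF.  `KB n R = (HGL ⧸ blockRel) ⧸ (im pos ⊔ im neg)`; the map is `mkQ ∘ mkQ`, surjective.  Kernel: `mkQ (mkQ v) = 0` iff
`mkQ v ∈ KQ.im pos ⊔ KQ.im neg`; these are the images under `(blockRel).mkQ` of the spans of the second and third
kind of generators (`KQ.mk r c = mkQ (HGL.of r c)`, `Submodule.map_span`), so iff
`v ∈ span (second, third) ⊔ blockRel` (`Submodule.comap_map_mkQ`/`Submodule.mem_sup`), and `blockRel` is the span of
the first kind. -/
def S_UK0 : Prop := ∀ (n : ℕ) (R : Type) [Ring R],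
  ∃ q : HGL (n + 1) (LaurentPolynomial R) →ₗ[ℚ] KB n R,
    (∀ (r : ℕ) (c : HQ (n + 1) (GLn (LaurentPolynomial R) r)),
      q (HGL.of (n + 1) _ r c) = KB.mk n R r c) ∧
    Function.Surjective q ∧ ∀ v, q v = 0 ↔ v ∈ Submodule.span ℚ (RG n R)

/-- FJL_KBM (130 lines; hypothesis `S_UK0`).  The map induced by a ring homomorphism.

PROOF.  Let `q, q'` be the maps of `S_UK0` for `R, S`.  `hglm (n + 1) (mapL f)` maps `RG n R` into `RG n S`
(`HQ.map_comp` and: `glm (mapL f)` commutes with `bsumHom` (`FJB.WHX.glm_bsum`), with `fst`, `snd` (for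
`MonoidHom.prodMap (glm _ a) (glm _ b)`); `(mapL f).comp (posIncl R) = (posIncl S).comp (Polynomial.mapRingHom f)` and
the same for `negIncl`: `mapL_posIncl`, `mapL_negIncl`), so `ker q ≤ ker (q' ∘ hglm)` and there is
`M` with `M ∘ q = q' ∘ hglm` (`q` is surjective: `LinearMap.exists_extend`, or `exists_fun`-like, or
`(LinearMap.ker q).liftQ` composed with the inverse of `LinearMap.quotKerEquivOfSurjective`).  Uniqueness: the
elements `KB.mk n R r c = q (HGL.of r c)` span (`q` surjective, `DirectSum` induction). -/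
def S_KBM : Prop := ∀ (n : ℕ) (R S : Type) [Ring R] [Ring S] (f : R →+* S),
  (∃ M : KB n R →ₗ[ℚ] KB n S, IsKm n f M) ∧
  (∀ M M' : KB n R →ₗ[ℚ] KB n S, IsKm n f M → IsKm n f M' → M = M') ∧
  ∀ (T : Type) [Ring T] (g : S →+* T) (M : KB n R →ₗ[ℚ] KB n S) (M' : KB n S →ₗ[ℚ] KB n T),
    IsKm n f M → IsKm n g M' → IsKm n (g.comp f) (M' ∘ₗ M)

/-- FJL_NTP (120 lines; no hypotheses).  Naturality of the product and of `tau`.

PROOF.  `x = KNegOne.of e` (`KNegOne.exists_of`); `pG_of` on both sides; `M (KB.mk e.n (HQ.map (rhoG ..) c)) =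
KB.mk e.n (HQ.map (glm (mapL (gr ι)) e.n) (HQ.map (rhoG ..) c))` and `HQ.map_comp`: the composition
`(glm (mapL (gr ι)) e.n).comp (rhoG (mapL (gr φ)) (cu (of ∘ j)) _ e)` is
`rhoG (mapL (gr (ι.comp φ))) (cu (of ∘ ι ∘ j)) _ e` (`Units.ext`, `rhoG_val`, `rhoMat_map`, `mapL_mapL`, `gr_comp`,
`gr_of`, `mapL f (cst a) = cst (f a)` (`mapL_single`)).  `tau`: `tau n G a = KB.mk n _ 1 (HQ.map (gl1 mon) a)`;
`(glm (mapL (gr ι)) 1).comp (gl1 mon) = (gl1 mon).comp (MonoidHom.prodMap ι (MonoidHom.id _))` (`Units.ext`,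
`mapL_single`, `gr_of`). -/
def S_NTP : Prop := ∀ (n : ℕ) (G G' : Type) [Group G] [Group G'] (ι : G →* G')
  (M : KB n (MonoidAlgebra ℤ G) →ₗ[ℚ] KB n (MonoidAlgebra ℤ G')), IsKm n (gr ι) M →
  (∀ (C P : Type) [Group C] [Group P] (φ : C →* G) (j : P →* G)
    (H : ∀ z c, Commute (j z) (φ c)) (H' : ∀ z c, Commute (ι.comp j z) (ι.comp φ c))
    (x : KNegOne (MonoidAlgebra ℤ C)) (c : HQ (n + 1) P),
    M (pG n φ j H x c) = pG n (ι.comp φ) (ι.comp j) H' x c) ∧
  ∀ a, M (tau n G a) = tau n G' (HQ.map (n + 1) (MonoidHom.prodMap ι (MonoidHom.id _)) a)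

/-! ## Directed unions -/

/-- FJL_UHF (100 lines; no hypotheses).  Every homology class comes from a finitely generated subgroup.

PROOF.  `c = cl z`, `T` the finite set of the entries of the tuples in the support of `ch z`, `P'` its closure (`FG`).
Let `w : IC ℚ m P'` with `IC.map ℚ m P'.subtype w = ch z` (sum over the support of the lifted tuples).
`m = 0`: `w` is the chain of a cycle `z'` (`(t_UCZ t_UCT).1 P' w`, as for `FJB.WHX.z0`); `m = m' + 1`:
`IC.map (dI w) = dI (IC.map w) = dI (ch z) = 0` (`d_ch`; `dI` commutes with `IC.map` of a homomorphism: on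
`Finsupp.single`, `dI_single`, `IC.map_single`) and `IC.map` of an injective map is injective
(`Finsupp.mapDomain_injective`), so `dI w = 0` and `exists_ch`.  `Hk.map_cl`, `cl_congr`. -/
def S_UHF : Prop := ∀ (m : ℕ) (P : Type) [Group P] (c : HQ m P),
  ∃ P' : Subgroup P, P'.FG ∧ ∃ c' : HQ m P', HQ.map m P'.subtype c' = c

/-- FJL_UHG (160 lines; no hypotheses).  Homology of directed unions.

PROOF.  As in UHF.  First part: `i` with all the entries of `ch z` in the range of `ρ i`; lift the chain, `ρ i` is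
injective.  Second part: `c = cl z`; `Hk.map_cl (ρ0) z` gives `y`, `ch y = IC.map ρ0 (ch z)`, `cl y = 0`, so
(`cl_eq_zero_iff`) `ch y = dI ℚ m Γ w`; choose `i` for the entries of `w`, and `w' : IC ℚ (m + 1) (Γi i)` with
`IC.map (ρ i) w' = w`; then `IC.map (ρ i) (IC.map (t i) (ch z)) = IC.map ρ0 (ch z) = dI w = IC.map (ρ i) (dI w')`, so
`IC.map (t i) (ch z) = dI w'` by injectivity, and `HQ.map (t i) c = 0` (`Hk.map_cl`, `cl_eq_zero_iff`). -/
def S_UHG : Prop := ∀ (m : ℕ) (I : Type) (Γi : I → Type) [∀ i, Group (Γi i)] (Γ : Type) [Group Γ]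
  (ρ : ∀ i, Γi i →* Γ), (∀ i, Function.Injective (ρ i)) →
  (∀ S : Finset Γ, ∃ i, ∀ x ∈ S, x ∈ (ρ i).range) →
  (∀ c : HQ m Γ, ∃ i, ∃ c' : HQ m (Γi i), HQ.map m (ρ i) c' = c) ∧
  ∀ (Γ0 : Type) [Group Γ0] (ρ0 : Γ0 →* Γ) (t : ∀ i, Γ0 →* Γi i), (∀ i x, ρ i (t i x) = ρ0 x) →
    ∀ c : HQ m Γ0, HQ.map m ρ0 c = 0 → ∃ i, HQ.map m (t i) c = 0

/-- FJL_UMG (120 lines; no hypotheses).  Matrices over a directed union of rings.

PROOF.  Injectivity of `glm (τ i) r` entrywise.  For a finite set `S` of `GLn T r` let `S'` be the finite set of all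
entries of `X.val` and `X.inv`, `X ∈ S`, and `i` for `S'`.  For `X ∈ S` choose matrices `Y`, `Z` over `Ti i` with
`Y.map (τ i) = X.val`, `Z.map (τ i) = X.inv`; `Y * Z = 1` and `Z * Y = 1` because `τ i` is injective
(`Matrix.map_mul`, `Matrix.map_one`, `Matrix.map_injective`).  Products: the same for the union of the two sets of
entries. -/
def S_UMG : Prop := ∀ (I : Type) (Ti : I → Type) [∀ i, Ring (Ti i)] (T : Type) [Ring T]
  (τ : ∀ i, Ti i →+* T), (∀ i, Function.Injective (τ i)) →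
  (∀ S : Finset T, ∃ i, ∀ x ∈ S, x ∈ (τ i).range) →
  (∀ r : ℕ, (∀ i, Function.Injective (glm (τ i) r)) ∧
    ∀ S : Finset (GLn T r), ∃ i, ∀ x ∈ S, x ∈ (glm (τ i) r).range) ∧
  ∀ a b : ℕ, (∀ i, Function.Injective (MonoidHom.prodMap (glm (τ i) a) (glm (τ i) b))) ∧
    ∀ S : Finset (GLn T a × GLn T b), ∃ i, ∀ x ∈ S,
      x ∈ (MonoidHom.prodMap (glm (τ i) a) (glm (τ i) b)).range

/-- The finitely generated subgroups containing `G'`. -/
abbrev FGS {G : Type} [Group G] (G' : Subgroup G) : Type := {K : Subgroup G // G' ≤ K ∧ K.FG}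

/-- FJL_UMR (120 lines; no hypotheses).  Group rings over a directed union of groups.

PROOF.  For a finite set `S` of Laurent polynomials let `s` be the finite set of all elements of `G` in the supports of
the coefficients, and `K = G' ⊔ closure s` (`FG`).  A Laurent polynomial whose coefficients have support in `K`
is in the range (`AddMonoidAlgebra` induction, or: the range is a subring containing the `single n (single g r)`,
`g ∈ K`).  Injectivity: `MonoidAlgebra.mapDomain` of an injective map is injective, `mapL` is coefficientwise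
(`mapL_single`, `lco_mapL`).  The same for polynomials. -/
def S_UMR : Prop := ∀ (G : Type) [Group G] (G' : Subgroup G), G'.FG →
  ((∀ K : FGS G', Function.Injective (mapL (gr K.1.subtype))) ∧
    ∀ S : Finset (LaurentPolynomial (MonoidAlgebra ℤ G)), ∃ K : FGS G', ∀ x ∈ S,
      x ∈ (mapL (gr K.1.subtype)).range) ∧
  (∀ K : FGS G', Function.Injective (Polynomial.mapRingHom (gr K.1.subtype))) ∧
    ∀ S : Finset (Polynomial (MonoidAlgebra ℤ G)), ∃ K : FGS G', ∀ x ∈ S,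
      x ∈ (Polynomial.mapRingHom (gr K.1.subtype)).range

/-- FJL_UK1 (170 lines; hypotheses `S_UHG`, `S_UMG`, `S_UMR`).  The relations come from finitely generated subgroups.

PROOF.  Span induction.  Generators: block: `c ∈ HQ (n + 1) (GLn L a × GLn L b)`, `L = ℤ[G][t,t⁻¹]`; by `S_UMR`,
`S_UMG`, `S_UHG` (first part, `I = FGS G'`, `ρ K = prodMap (glm (mapL (gr K.subtype)) a) (..)`) there are `K` and `c'` with
`HQ.map ρ c' = c`; the generator of `RG n ℤ[K]` given by `c'` is mapped to the given one (`hglm_of`, `HQ.map_comp`,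
`FJB.WHX.glm_bsum`, `MonoidHom.fst ∘ prodMap = glm ∘ fst`).  Positive and negative: `GLn (Polynomial _) r`, with
`mapL_posIncl`, `mapL_negIncl` (the same calculation as in KBM).
Sums: given `(K1, w1)`, `(K2, w2)` take `K = K1 ⊔ K2` (`FG`) and the images of `w1`, `w2` under
`hglm (mapL (gr (Subgroup.inclusion _)))`, which are in the span (`hglm` maps `RG` into `RG`: the calculation in
KBM) and have the right images (`hglm` is functorial: `hglm_of`, `HQ.map_comp`, `mapL_mapL`, `gr_comp`).  Multiples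
and `0`: clear (`G'` itself). -/
def S_UK1 : Prop := ∀ (G : Type) [Group G] (n : ℕ) (G' : Subgroup G), G'.FG →
  ∀ v ∈ Submodule.span ℚ (RG n (MonoidAlgebra ℤ G)), ∃ K : FGS G',
    ∃ w ∈ Submodule.span ℚ (RG n (MonoidAlgebra ℤ K.1)),
      hglm (n + 1) (mapL (gr K.1.subtype)) w = v

/-- FJL_UK2 (120 lines; hypotheses `S_UHG`, `S_UMG`, `S_UMR`).  Elements of `HGL` which die in the union die in a
finitely generated subgroup.

PROOF.  The component of `hglm v` at `r` is `HQ.map (glm ..) (v r)` (`DirectSum`), so `HQ.map _ (v r) = 0` for all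
`r`.  By `S_UHG` (second part; `Γ0 = GLn (ℤ[G'][t,t⁻¹]) r`, `t K = glm (mapL (gr (inclusion _))) r`) there is for
every `r` in the (finite) support of `v` a `K_r : FGS G'` with `HQ.map (t K_r) (v r) = 0`.  `K = ` the supremum of
the `K_r` (`FG`; `Finset.sup`, or induction over the support).  `v = ∑ r ∈ support, HGL.of r (v r)` and `hglm_of`. -/
def S_UK2 : Prop := ∀ (G : Type) [Group G] (n : ℕ) (G' : Subgroup G), G'.FG →
  ∀ v : HGL (n + 1) (LaurentPolynomial (MonoidAlgebra ℤ G')),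
    hglm (n + 1) (mapL (gr G'.subtype)) v = 0 →
    ∃ (K : Subgroup G) (h : G' ≤ K), K.FG ∧
      hglm (n + 1) (mapL (gr (Subgroup.inclusion h))) v = 0

/-- FJL_UKB (120 lines; hypotheses `S_UK0`, `S_UK1`, `S_UK2`).  Elements of `KB n ℤ[G']` which die in
`KB n ℤ[G]` die in `KB n ℤ[K]` for a finitely generated `K ≥ G'`.

PROOF.  `q', qK, q` the maps of `S_UK0` for `G'`, `K`, `G`; `x = q' v`.  For `M` with `IsKm`:
`M (q' v) = q (hglm (mapL (gr G'.subtype)) v)` (check on `HGL.of r c`: `hglm_of`).  `M x = 0`: `hglm v ∈ span RG`; by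
`S_UK1` there are `K1 ≥ G'` and `w1 ∈ span (RG n ℤ[K1])` with `hglm w1 = hglm v`.  So
`v1 = hglm (inclusion) v - w1` (over `K1`) satisfies `hglm v1 = 0`; `S_UK2` for `K1` gives `K ≥ K1` with
`hglm (inclusion) v1 = 0`, i.e. the image of `v` over `K` is the image of `w1`, which is in `span (RG n ℤ[K])` (the
calculation in KBM: `hglm (mapL f)` maps `RG` into `RG`; prove it again or import `Pool.Agent.FJL.P_KBM`), so
`M'' x = qK (..) = 0`. -/
def S_UKB : Prop := ∀ (G : Type) [Group G] (n : ℕ) (G' : Subgroup G), G'.FG →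
  ∀ (M : KB n (MonoidAlgebra ℤ G') →ₗ[ℚ] KB n (MonoidAlgebra ℤ G)), IsKm n (gr G'.subtype) M →
  ∀ x, M x = 0 → ∃ (K : Subgroup G) (h : G' ≤ K), K.FG ∧
    ∀ M' : KB n (MonoidAlgebra ℤ G') →ₗ[ℚ] KB n (MonoidAlgebra ℤ K),
      IsKm n (gr (Subgroup.inclusion h)) M' → M' x = 0

/-- FJL_UNA (120 lines; hypotheses `S_KBM`, `S_UKB`).  Compactness: linear conditions which can be solved over all
finitely generated subgroups can be solved over `G`.

PROOF.  `exists_fun` (FJA/Avg.lean) with `J = {y // y ∈ ConG}`, `a = y.1.1`, `b = y.1.2`.  Let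
`∑ r_y • y.1 = 0` (finite).  `hfrom` gives for every `y` in the support `K_y` and `v_y`; let `G'` be the supremum of
the `K_y` (`FG`), `v'_y` the image of `v_y` in `KB n ℤ[G']` (`S_KBM`, `hup`), `(v'_y, y.2) ∈ Con G'`, and the image of
`v'_y` in `KB n ℤ[G]` is `y.1` (`S_KBM`: composition and uniqueness; `G'.subtype.comp (inclusion) = K_y.subtype`).
So `x = ∑ r_y • v'_y` is mapped to `0`; by `S_UKB` it dies in `KB n ℤ[K]`.  With `Φ'` from `hsol` for `K`:
`∑ r_y * y.2 = ∑ r_y Φ'(image of v'_y) = Φ' (image of x) = 0` (`hup` for `G' ≤ K`). -/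
def S_UNA : Prop := ∀ (G : Type) [Group G] (n : ℕ)
  (Con : ∀ K : Subgroup G, Set (KB n (MonoidAlgebra ℤ K) × ℚ))
  (ConG : Set (KB n (MonoidAlgebra ℤ G) × ℚ)),
  (∀ (K K' : Subgroup G) (h : K ≤ K') (M : KB n (MonoidAlgebra ℤ K) →ₗ[ℚ] KB n (MonoidAlgebra ℤ K')),
    IsKm n (gr (Subgroup.inclusion h)) M → ∀ y ∈ Con K, (M y.1, y.2) ∈ Con K') →
  (∀ y ∈ ConG, ∃ K : Subgroup G, K.FG ∧ ∃ v : KB n (MonoidAlgebra ℤ K), (v, y.2) ∈ Con K ∧
    ∀ M : KB n (MonoidAlgebra ℤ K) →ₗ[ℚ] KB n (MonoidAlgebra ℤ G), IsKm n (gr K.subtype) M →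
      M v = y.1) →
  (∀ K : Subgroup G, K.FG → ∃ Φ : KB n (MonoidAlgebra ℤ K) →ₗ[ℚ] ℚ, ∀ y ∈ Con K, Φ y.1 = y.2) →
  ∃ Φ : KB n (MonoidAlgebra ℤ G) →ₗ[ℚ] ℚ, ∀ y ∈ ConG, Φ y.1 = y.2

/-- The restriction of a functional on `H_{n+1}(G × ℤ)`. -/
def resL {n : ℕ} {G Γ : Type} [Group G] [Group Γ]
    (lam : HQ (n + 1) (G × Multiplicative ℤ) →ₗ[ℚ] ℚ) (ι : Γ →* G) :
    HQ (n + 1) (Γ × Multiplicative ℤ) →ₗ[ℚ] ℚ :=
  lam ∘ₗ HQ.map (n + 1) (MonoidHom.prodMap ι (MonoidHom.id (Multiplicative ℤ)))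

/-- FJL_UNN (180 lines; hypotheses `S_UNA`, `S_NTP`, `S_UHF`).  The union theorem for the parts `t = 0` and `t = -1`,
with an additional set of conditions.

PROOF.  For a group `Γ` and `ι : Γ →* G` let `N Γ ι ⊆ KB n ℤ[Γ] × ℚ` be the set of all
`(tau n Γ a, lam (HQ.map (prodMap ι id) a))` and all `(pG n φ j H x c, E C P (ι.comp φ) (ι.comp j) _ x c)`,
`C` finite, `φ` injective.  `S_UNA` with `Con K = N K K.subtype ∪ Con' K`, `ConG = N G (MonoidHom.id G) ∪ ConG'`
(or write the second condition with `E C P φ j H x c`).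
`hup` for `N`: `S_NTP` (both parts), `K'.subtype.comp (inclusion h) = K.subtype`.
`hfrom` for `N`: for `(φ, j, x, c)` take `P' ≤ P` `FG` and `c'` with `HQ.map P'.subtype c' = c` (`S_UHF`);
`K = closure (range φ) ⊔ P'.map j` (`FG`: `C` is finite; `Subgroup.FG.map`); `φ' : C →* K`, `j' : P' →* K` the
corestrictions; `v = pG n φ' j' _ x c'`; its image is `pG n φ (j.comp P'.subtype) _ x c' = pG n φ j H x c`
(`S_NTP`, `pG_comp`), and `E C P' (K.subtype.comp φ') (K.subtype.comp j') _ x c' = E C P φ j H x c` (`IsFA.comp`).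
For `a ∈ HQ (n + 1) (G × ℤ)`: `P' ≤ G × ℤ` `FG` and `a'`; `K = P'.map fst`; `ψ : P' →* K × ℤ`; `v = tau n K (HQ.map ψ
a')`, `S_NTP`, `HQ.map_comp`.  `hsol`: the hypothesis (`SolN` for `resL`, `resA`). -/
def S_UNN : Prop := ∀ (G : Type) [Group G] (n : ℕ)
  (lam : HQ (n + 1) (G × Multiplicative ℤ) →ₗ[ℚ] ℚ) (E : FamA n G), IsFA E →
  ∀ (Con : ∀ K : Subgroup G, Set (KB n (MonoidAlgebra ℤ K) × ℚ))
  (ConG : Set (KB n (MonoidAlgebra ℤ G) × ℚ)),
  (∀ (K K' : Subgroup G) (h : K ≤ K') (M : KB n (MonoidAlgebra ℤ K) →ₗ[ℚ] KB n (MonoidAlgebra ℤ K')),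
    IsKm n (gr (Subgroup.inclusion h)) M → ∀ y ∈ Con K, (M y.1, y.2) ∈ Con K') →
  (∀ y ∈ ConG, ∃ K : Subgroup G, K.FG ∧ ∃ v : KB n (MonoidAlgebra ℤ K), (v, y.2) ∈ Con K ∧
    ∀ M : KB n (MonoidAlgebra ℤ K) →ₗ[ℚ] KB n (MonoidAlgebra ℤ G), IsKm n (gr K.subtype) M →
      M v = y.1) →
  (∀ K : Subgroup G, K.FG → ∃ Φ : KB n (MonoidAlgebra ℤ K) →ₗ[ℚ] ℚ,
    SolN (resL lam K.subtype) (resA E K.subtype) Φ ∧ ∀ y ∈ Con K, Φ y.1 = y.2) →
  ∃ Φ : KB n (MonoidAlgebra ℤ G) →ₗ[ℚ] ℚ, SolN lam E Φ ∧ ∀ y ∈ ConG, Φ y.1 = y.2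

end Pool.Agent.FJL
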