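import Pool.Agent.FJL.St1
import Pool.Agent.FJL.St2
import Pool.Agent.FJL.St3
import Pool.Agent.FJL.LDefs
import Pool.Agent.FJB.P_KUN

/-!
# FJL, block 4 (assembly, dual form): statements with proofs

File names: `Pool/Agent/FJL/P_X.lean`, theorem `t_X : S_X` (hypotheses as in the doc strings), namespace
`Pool.Agent.FJL`; imports `Pool.Agent.FJL.St4`.  The definitions of the hand-in are in the namespaces
`Pool.Agent.FJL.OD` (ODefs.lean) and `Pool.Agent.FJL.Dual` (LDefs.lean); `Dual.H ℚ m Γ = HQ m Γ`,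
`Dual.Coh m Γ = (HQ m Γ →ₗ[ℚ] ℚ)`, `Dual.GLr R r = GLn R r`, `Dual.lm φ = mapL (FJA.gr φ)` by definition (use
`show`, `change`, type ascriptions).
-/

set_option autoImplicit false
set_option linter.unusedSectionVars false

open Matrix Pool.Agent.WhK Pool.Agent.Lib25 CategoryTheory Pool.Agent.FJA

noncomputable section

namespace Pool.Agent.FJL

/-- FJL_UNO (170 lines; hypotheses `S_UNN`, `S_QEX`, `S_QNT`, `S_UHF`).  The union theorem in positive degrees.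

PROOF.  `S_UNN` with `n = m + 1` and the conditions of the part `t = 1`: `Con K` is the set of all
`(Q c, D C P (K.subtype.comp φ) (K.subtype.comp j) _ r X c)`, `C` finite, `φ : C →* K` injective, `j : P →* K`,
`IsQ m φ j r X Q`, `c : HQ m P`; `ConG` the set of all `(Q c, D C P φ j H r X c)`.
`hup`: `S_QNT` (nat) for `ι = Subgroup.inclusion h`: `M ∘ₗ Q` is the product for `(ι φ, ι j, X)`.
`hfrom`: for `(φ, j, r, X, Q, c)` take `P' ≤ P` `FG` and `c'` with `HQ.map m P'.subtype c' = c` (`S_UHF`),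
`K = closure (range φ) ⊔ P'.map j`, `φ', j'` the corestrictions, `Q'` the product for `(φ', j', r, X)` (`S_QEX`);
`v = Q' c'`.  `M ∘ₗ Q'` is the product for `(φ, j ∘ P'.subtype)` (nat), so `M (Q' c') = Q (HQ.map m P'.subtype c') = Q c`
(comp); `IsFB.comp` for the second component.  `hsol`: the hypothesis. -/
def S_UNO : Prop := ∀ (G : Type) [Group G] (m : ℕ)
  (lam : HQ (m + 2) (G × Multiplicative ℤ) →ₗ[ℚ] ℚ) (E : FamA (m + 1) G) (D : FamB m G), IsFA E →
  IsFB D →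
  (∀ K : Subgroup G, K.FG → ∃ Φ : KB (m + 1) (MonoidAlgebra ℤ K) →ₗ[ℚ] ℚ,
    SolN (resL lam K.subtype) (resA E K.subtype) Φ ∧ SolO (resB D K.subtype) Φ) →
  ∃ Φ : KB (m + 1) (MonoidAlgebra ℤ G) →ₗ[ℚ] ℚ, SolN lam E Φ ∧ SolO D Φ

/-- FJL_SOL (110 lines; hypotheses: for a box `β`: `IV β`, `GN β`, and `S_LMN`, `S_FVN`, `S_LMB`, `S_FVB`).  The
solution for a group satisfying the detection conditions.

PROOF.  `La` from `S_LMN` (for `E`), `Lb` from `S_LMB` (for `D`), `Φ` from `β.extS` (`β.ext0`).  First part of `SolN`: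
`extS`.  Second part: `S_FVN` for `E1 = famA Φ` (`isFA_famA`, `famA_apply`) and `E2 = E`: on the universal classes
`Φ (pG n φ sub _ κ c) = Φ (β.A G n (sym p (φ gen) c)) = La (sym ..) = E ..` (`Box.A_sym`).  `SolO`: `S_FVB` with
`B = β.B G m`. -/
def S_SOL : Prop := ∀ β : Box, IV β → GN β →
  (∀ (G : Type) [Group G] (lam : HQ 1 (G × Multiplicative ℤ) →ₗ[ℚ] ℚ) (E : FamA 0 G), IsFA E →
    DetA E → (∀ a ∈ inG 0 G, lam a = 0) →
    ∃ Φ : KB 0 (MonoidAlgebra ℤ G) →ₗ[ℚ] ℚ, SolN lam E Φ) ∧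
  ∀ (G : Type) [Group G] (m : ℕ), (m ≤ 1 ∨ FJB.PBd G) →
    ∀ (lam : HQ (m + 2) (G × Multiplicative ℤ) →ₗ[ℚ] ℚ) (E : FamA (m + 1) G) (D : FamB m G),
    IsFA E → DetA E → IsFB D → DetB D → (∀ a ∈ inG (m + 1) G, lam a = 0) →
    ∃ Φ : KB (m + 1) (MonoidAlgebra ℤ G) →ₗ[ℚ] ℚ, SolN lam E Φ ∧ SolO D Φ

/-! ## The dual form -/

/-- FJL_DTU (60 lines; no hypotheses).  Detected classes vanish on the undetected homology classes.

PROOF.  `Dual.IsInt f` is `FJA.IsInt m Γ f` (`Dual.Cls x c` iff `c = hcl z`, `x = hch z` for a cycle `z`), so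
`Und m Γ c` is the hypothesis of the third case of `Dual.Det`; in the first two cases `c = 0` (`und_fin`). -/
def S_DTU : Prop := ∀ (m : ℕ) (Γ : Type) [Group Γ] (f : OD.Coh m Γ), OD.Det f →
  ∀ c : HQ m Γ, Und m Γ c → f.ev c = 0

/-- FJL_UDM (60 lines; no hypotheses).  Undetected classes are mapped to undetected classes.

PROOF.  `f` integral on `H_m(Q)` implies `f ∘ HQ.map m u` integral: for a cycle `z` with integral coefficients
`HQ.map m u (cl z) = cl y`, `ch y = IC.map u (ch z)` (`Hk.map_cl`) has integral coefficients (`Finsupp.mapDomain`: sums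
of integers). -/
def S_UDM : Prop := ∀ (m : ℕ) (P Q : Type) [Group P] [Group Q] (u : P →* Q) (c : HQ m P),
  Und m P c → Und m Q (HQ.map m u c)

/-- FJL_KNL (100 lines; no hypotheses).  Homomorphisms out of `K_{-1}` from functions on idempotent matrices.

PROOF.  The map `IdemClass (R[t,t⁻¹]) →+ W`, `e ↦ A e.n e.mat` (`Quotient.lift`: `MvN` is `e = x y`, `f = y x`, first
property; additivity: second property, `IdemMat.add`; zero: `A 0 0 = 0` from the second property with `r = s = 0`,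
or because `add zero zero ~ zero`), extended to `K0` by `Algebra.GrothendieckAddGroup.lift` (compare `prodI`,
`prodK0`, `prodK0_of` in FJA/Prod.lean), vanishes on `extImage R` (`prodKB_ext`: third property for
`posIncl R`, `negIncl R`; `posIncl (X) = T 1`, `negIncl (X) = T (-1)`, `posIncl (C x) = C x`), `QuotientAddGroup.lift`. -/
def S_KNL : Prop := ∀ (R W : Type) [Ring R] [AddCommGroup W]
  (A : ∀ r : ℕ, Matrix (Fin r) (Fin r) (LaurentPolynomial R) → W), Dual.IsKm1 A →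
  ∃ l : KNegOne R →+ W, ∀ e : IdemMat (LaurentPolynomial R), l (KNegOne.of e) = A e.n e.mat

/-- FJL_AFA (200 lines; hypothesis `S_KNL`).  The family attached to `A`.

PROOF.  For every subgroup `H` let `a H : KNegOne ℤ[H] →+ (HQ (n + 1) (CG H) →ₗ[ℚ] ℚ)` be the map of `S_KNL` if `H` is
finite, `0` otherwise.  Compatibility (`x = KNegOne.of e`, `KNegOne.exists_of`, `KNegOne.map_of`): for `Cnj g φ u`,
`H, H'` finite: (*) `a H' (Km φ x) c = a H x (HQ.map (n + 1) u c)`.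
For `φ : C →* G`, `j : P →* G` commuting let `ĵ : P →* CG φ.range`, `(ĵ z : G) = j z`, and
`E C P φ j H x c = a φ.range (Km φ.rangeRestrict x) (HQ.map (n + 1) ĵ c)`.
General lemma (**): `K` a finite subgroup of `G`, `C` finite, `ψ : C →* K`, `u : P →* CG K`, `g : G` with
`(ψ c : G) = g * φ c * g⁻¹` and `j z = g⁻¹ * u z * g`: `E C P φ j H x c = a K (Km ψ x) (HQ.map (n + 1) u c)`.
Proof: `φ1 : φ.range →* K`, `a ↦ g a g⁻¹` and `u1 : CG K →* CG φ.range`, `z ↦ g⁻¹ z g` satisfy `Cnj g φ1 u1`,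
`ψ = φ1.comp φ.rangeRestrict`, `ĵ = u1.comp u`; (*), `Km_comp`, `HQ.map_comp`.
`comp`: `ĵ' = ĵ.comp f` (same `φ.range`).  `map`: (**) for `φ' = φ.comp α`, `K = φ.range`, `g = 1`,
`ψ = φ.rangeRestrict.comp α`, `u = ĵ`.  `conj`: (**) for the pair `(φ, j)`, `K = φ'.range`, the element `g`,
`ψ = φ'.rangeRestrict`, `u = ĵ'`.  Last claim: (**) with `K = H`, `g = 1`, `ψ = id`, `u = id` (`Km_id`,
`HQ.map_id'`). -/
def S_AFA : Prop := ∀ (n : ℕ) (G : Type) [Group G]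
  (A : ∀ (H : Subgroup G) (r : ℕ), Matrix (Fin r) (Fin r) (OD.LG H) →
    OD.Coh (n + 1) (Dual.CG H)), Dual.IsA A →
  ∃ E : FamA n G, IsFA E ∧
    ∀ (K : Subgroup G), Finite K → ∀ (C P : Type) [Group C] [Group P] [Finite C] (φ : C →* G)
      (j : P →* G) (H : ∀ z c, Commute (j z) (φ c)) (ψ : C →* K) (u : P →* Dual.CG K),
      (∀ c, (ψ c : G) = φ c) → (∀ z, (u z : G) = j z) →
      ∀ (e : IdemMat (LaurentPolynomial (MonoidAlgebra ℤ C))) (c : HQ (n + 1) P),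
        E C P φ j H (KNegOne.of e) c =
          (A K e.n (e.mat.map (Dual.lm ψ))).ev (HQ.map (n + 1) u c)

/-- FJL_BFB (200 lines; no hypotheses).  The family attached to `B`.

PROOF.  As AFA: `b H r X = B H r X` if `H` is finite, `0` otherwise, and
`D C P φ j H r X c = b φ.range r (glm (gr φ.rangeRestrict) r X) (HQ.map m ĵ c)`; (**) as there, with
`glm (gr ψ) r = (glm (gr φ1) r).comp (glm (gr φ.rangeRestrict) r)`.  `mul`: `IsK1` first property (`glm` is a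
homomorphism); `blk`: second property (`Blk X Y (bsumHom (X, Y))`, and `glm` of the block sum is the block sum,
`FJB.WHX.glm_bsum`).  If `C` is finite the range of `φ` is finite. -/
def S_BFB : Prop := ∀ (m : ℕ) (G : Type) [Group G]
  (B : ∀ (H : Subgroup G) (r : ℕ), OD.GLr (MonoidAlgebra ℤ H) r →
    OD.Coh m (Dual.CG H)), Dual.IsB B →
  ∃ D : FamB m G, IsFB D ∧
    ∀ (K : Subgroup G), Finite K → ∀ (C P : Type) [Group C] [Group P] [Finite C] (φ : C →* G)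
      (j : P →* G) (H : ∀ z c, Commute (j z) (φ c)) (ψ : C →* K) (u : P →* Dual.CG K),
      (∀ c, (ψ c : G) = φ c) → (∀ z, (u z : G) = j z) →
      ∀ (r : ℕ) (X : GLn (MonoidAlgebra ℤ C) r) (c : HQ m P),
        D C P φ j H r X c = (B K r (glm (gr ψ) r X)).ev (HQ.map m u c)

/-- FJL_LDA (120 lines; hypotheses `S_DTU`, `S_UDM`).  Local detection.

PROOF.  Let `G'` be finitely generated, `ι = G'.subtype`, `φ : Cyc N →* G'` injective, `N > 1`,
`c ∈ HQ (n + 1) (Cen (φ gen))` undetected, `x = KNegOne.of e`.  `K = (ι.comp φ).range`: finite, cyclic, not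
trivial, `K ≤ G'`.  `k : Cen (φ gen) →* ↥(CG K ⊓ G')`, `z ↦ z`, and `i : ↥(CG K ⊓ G') →* CG K` the inclusion.  By the
formula for `E` with `C = Cyc N`, `P = Cen (φ gen)`, `ψ = (ι.comp φ).rangeRestrict`, `u = i.comp k`:
`resA E ι .. x c = (A K e.n e').ev (HQ.map u c) = ((A K e.n e').pull i).ev (HQ.map k c)` (`e' = e.mat.map (lm ψ)` is
idempotent; `HQ.map_comp`; `Coh.pull` is composition with `HQ.map`), which is `0` by `LDet` (`Fc K`), `S_UDM` and
`S_DTU`.  The same for `B`. -/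
def S_LDA : Prop :=
  (∀ (n : ℕ) (G : Type) [Group G]
    (A : ∀ (H : Subgroup G) (r : ℕ), Matrix (Fin r) (Fin r) (OD.LG H) →
      OD.Coh (n + 1) (Dual.CG H)) (E : FamA n G),
    (∀ (K : Subgroup G), Finite K → ∀ (C P : Type) [Group C] [Group P] [Finite C] (φ : C →* G)
      (j : P →* G) (H : ∀ z c, Commute (j z) (φ c)) (ψ : C →* K) (u : P →* Dual.CG K),
      (∀ c, (ψ c : G) = φ c) → (∀ z, (u z : G) = j z) →
      ∀ (e : IdemMat (LaurentPolynomial (MonoidAlgebra ℤ C))) (c : HQ (n + 1) P),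
        E C P φ j H (KNegOne.of e) c =
          (A K e.n (e.mat.map (Dual.lm ψ))).ev (HQ.map (n + 1) u c)) →
    (∀ (H : Subgroup G) (r : ℕ) (e : Matrix (Fin r) (Fin r) (OD.LG H)), Dual.Fc H →
      e * e = e → Dual.LDet (A H r e)) →
    ∀ G' : Subgroup G, G'.FG → DetA (resA E G'.subtype)) ∧
  ∀ (m : ℕ) (G : Type) [Group G]
    (B : ∀ (H : Subgroup G) (r : ℕ), OD.GLr (MonoidAlgebra ℤ H) r →
      OD.Coh m (Dual.CG H)) (D : FamB m G),
    (∀ (K : Subgroup G), Finite K → ∀ (C P : Type) [Group C] [Group P] [Finite C] (φ : C →* G)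
      (j : P →* G) (H : ∀ z c, Commute (j z) (φ c)) (ψ : C →* K) (u : P →* Dual.CG K),
      (∀ c, (ψ c : G) = φ c) → (∀ z, (u z : G) = j z) →
      ∀ (r : ℕ) (X : GLn (MonoidAlgebra ℤ C) r) (c : HQ m P),
        D C P φ j H r X c = (B K r (glm (gr ψ) r X)).ev (HQ.map m u c)) →
    (∀ (H : Subgroup G) (r : ℕ) (X : OD.GLr (MonoidAlgebra ℤ H) r), Dual.Fc H →
      Dual.LDet (B H r X)) →
    ∀ G' : Subgroup G, G'.FG → DetB (resB D G'.subtype)

/-- The classes on the general linear groups given by a functional on `K_n(ℤ[G]) ⊗ ℚ`. -/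
def FF {n : ℕ} {G : Type} [Group G] (Φ : KB n (MonoidAlgebra ℤ G) →ₗ[ℚ] ℚ) (r : ℕ) :
    OD.Coh (n + 1) (OD.GLr (OD.LG G) r) :=
  show HQ (n + 1) (GLn (LaurentPolynomial (MonoidAlgebra ℤ G)) r) →ₗ[ℚ] ℚ from
    Φ ∘ₗ KB.mk n (MonoidAlgebra ℤ G) r

/-- FJL_FKN (80 lines; no hypotheses; old form).

PROOF.  Block sums: `s = bsumHom _ a b`, `FJB.WHX.KB_block` (on every class `c`).  A ring homomorphism
`j : ℤ[G][X] → ℤ[G][t,t⁻¹]` with `j (C x) = C x` and `j X = T 1` is `posIncl _` (`Polynomial.ringHom_ext`), and with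
`j X = T (-1)` it is `negIncl _`; `KB_mk_pos`, `KB_mk_neg`. -/
def S_FKN : Prop := ∀ (n : ℕ) (G : Type) [Group G] (Φ : KB n (MonoidAlgebra ℤ G) →ₗ[ℚ] ℚ),
  OD.IsKn (FF Φ)

/-- FJL_EX0 (90 lines; no hypotheses; `lam` is the functional of `FJB.t_KUN`).

PROOF.  `Cls x c`: `x = ch z`, `c = cl z`.  `z'` from the hypothesis; `Hk.map_cl (gl1 mon) z'` gives `y` with
`HQ.map (gl1 mon) (cl z') = cl y`, `ch y = IC.map (gl1 mon) (ch z')`, and `c' = cl y`: `Cls (ch y) (cl y)` and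
`ch y = ins n (tr G 1) (x.mapDomain fun a i => gr G 1 (a i))` because `AS1.map_insL`, `gl1 mon (1, t) = tr G 1`,
`gl1 mon (g, 1) = Dual.gr G 1 g` (`1 × 1` matrices: `Matrix.scalar` is the diagonal matrix), `ins = insL` (same
definition).  `(FF Φ 1).ev (cl y) = Φ (tau n G (cl z')) = lam (cl z') = f (cl z)`. -/
def S_EX0 : Prop := ∀ (n : ℕ) (G : Type) [Group G] (f : OD.Coh n G)
  (lam : HQ (n + 1) (G × Multiplicative ℤ) →ₗ[ℚ] ℚ),
  (∀ z : ZC ℚ n G, ∃ z' : ZC ℚ (n + 1) (G × Multiplicative ℤ),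
    ch ℚ (n + 1) _ z' = insL n ((1 : G), Multiplicative.ofAdd (1 : ℤ))
      (IC.map ℚ n (MonoidHom.inl G (Multiplicative ℤ)) (ch ℚ n G z)) ∧
    lam (cl ℚ (n + 1) _ z') = f.ev (cl ℚ n G z)) →
  ∀ Φ : KB n (MonoidAlgebra ℤ G) →ₗ[ℚ] ℚ, (∀ a, Φ (tau n G a) = lam a) →
    Dual.Ext0 f (FF Φ 1)

/-- FJL_EXA (90 lines; no hypotheses).

PROOF.  For `H` finite and `e` idempotent let `ε = ⟨r, e, _⟩` and
`s = rhoG (mapL (gr H.subtype)) (cu (of ∘ (CG H).subtype)) _ ε` (`(CG H).subtype` commutes with `H.subtype`).  The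
matrix of `s z` is `rhoMat (e.map (lm H.subtype)) (cst (of z))`, i.e. `u • E + (1 - E)`, and `u • E = (diagonal u) * E`
with `gr G r z = ` the scalar matrix of `u = C (of z)`.  `(FF Φ r).pull s c = Φ (KB.mk r (HQ.map s c)) =
Φ (pG n H.subtype (CG H).subtype _ (KNegOne.of ε) c) = E .. = (A H r e).ev c` (`pG_of`; `SolN`; the formula
for `E` with `K = H`, `ψ = id`, `u = id`: `e.map (lm (MonoidHom.id H)) = e`, `HQ.map_id'`). -/
def S_EXA : Prop := ∀ (n : ℕ) (G : Type) [Group G]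
  (A : ∀ (H : Subgroup G) (r : ℕ), Matrix (Fin r) (Fin r) (OD.LG H) →
    OD.Coh (n + 1) (Dual.CG H)) (E : FamA n G),
  (∀ (K : Subgroup G), Finite K → ∀ (C P : Type) [Group C] [Group P] [Finite C] (φ : C →* G)
    (j : P →* G) (H : ∀ z c, Commute (j z) (φ c)) (ψ : C →* K) (u : P →* Dual.CG K),
    (∀ c, (ψ c : G) = φ c) → (∀ z, (u z : G) = j z) →
    ∀ (e : IdemMat (LaurentPolynomial (MonoidAlgebra ℤ C))) (c : HQ (n + 1) P),
      E C P φ j H (KNegOne.of e) c =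
        (A K e.n (e.mat.map (Dual.lm ψ))).ev (HQ.map (n + 1) u c)) →
  ∀ (lam : HQ (n + 1) (G × Multiplicative ℤ) →ₗ[ℚ] ℚ) (Φ : KB n (MonoidAlgebra ℤ G) →ₗ[ℚ] ℚ),
    SolN lam E Φ → Dual.ExtA A (FF Φ)

/-- FJL_EXB (100 lines; hypothesis `S_QEX`).

PROOF.  `Cls x c`: `x = ch z`, `c = cl z`.  `Q` the product for `(H.subtype, (CG H).subtype, r, X)` (`S_QEX`); `IsQ`
gives `z'` with `ch z' = chQ .. x` and `Q c = KB.mk r (cl z')`; `c' = cl z'`.  `chQ` is the chain in `ExtB`: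
`ins = insL`, `tI _ r = tr G r`, `scG G r g = Dual.gr G r g`, `glm ((cst _).comp (gr H.subtype)) r X =
GLr.map (lm H.subtype) r (GLr.map C r X)` (matrices: scalar = diagonal; `mapL (gr _) (C a) = cst (gr _ a)`).
`(FF Φ r).ev c' = Φ (Q c) = D .. = (B H r X).ev c` (`SolO`, the formula for `D` with `ψ = id`, `u = id`). -/
def S_EXB : Prop := ∀ (m : ℕ) (G : Type) [Group G]
  (B : ∀ (H : Subgroup G) (r : ℕ), OD.GLr (MonoidAlgebra ℤ H) r →
    OD.Coh m (Dual.CG H)) (D : FamB m G),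
  (∀ (K : Subgroup G), Finite K → ∀ (C P : Type) [Group C] [Group P] [Finite C] (φ : C →* G)
    (j : P →* G) (H : ∀ z c, Commute (j z) (φ c)) (ψ : C →* K) (u : P →* Dual.CG K),
    (∀ c, (ψ c : G) = φ c) → (∀ z, (u z : G) = j z) →
    ∀ (r : ℕ) (X : GLn (MonoidAlgebra ℤ C) r) (c : HQ m P),
      D C P φ j H r X c = (B K r (glm (gr ψ) r X)).ev (HQ.map m u c)) →
  ∀ Φ : KB (m + 1) (MonoidAlgebra ℤ G) →ₗ[ℚ] ℚ, SolO D Φ → Dual.ExtB B (FF Φ)

end Pool.Agent.FJL
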